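import Pool.Agent.Run7.h537.AT.Up
import Pool.Agent.H974R2.Sym

/-! The frontier of a set of vertices; upper bound by the number of vertices with three arms. -/

set_option autoImplicit false

namespace Run7.h537.FL

open H974 H12S Finset H389NS H984P H984N H342P
open Pool.Agent.W424.OD Run7.h537.AT Pool.Agent.W801.RS.LOWA
open TH992.T (Bq mem_Bq card_Bq Nb Yb Fam RE_sub_RE)
open Run7.h561 (Cu cluster_eq mem_box sd_le le_sd sd_lt lt_sd sd_comm sd_tri sd_nonneg)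

/-- The vertices of `K` which are joined to `Q` by a lattice path off `B`, after one step. -/
def AccS (K B Q : Set Vtx) (w : Vtx) : Prop := w ∈ K ∧ ∃ (e : Plain.Edge) (p q : Vtx),
    ((Plain.fst e = w ∧ Plain.snd e = p) ∨ (Plain.fst e = p ∧ Plain.snd e = w)) ∧
    p ∉ B ∧ q ∈ Q ∧ Reach {e | src e ∉ B ∧ tgt e ∉ B} p q

theorem avoid_reach' {C : Set (ℤ × ℤ)} {p q : ℤ × ℤ} (h : (avoidGraph C).Reachable p q) :
    Reach {e | src e ∉ C ∧ tgt e ∉ C} p q := by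
  rw [SimpleGraph.reachable_iff_reflTransGen] at h
  refine Relation.ReflTransGen.mono ?_ _ _ h
  intro a b hab
  unfold avoidGraph at hab
  rw [SimpleGraph.fromRel_adj] at hab
  obtain ⟨-, ⟨⟨e, h1, h2⟩, h3, h4⟩ | ⟨⟨e, h1, h2⟩, h3, h4⟩⟩ := hab
  · rw [Plain.fst_eq] at h1
    rw [Plain.snd_eq] at h2
    exact ⟨e, ⟨by rw [h1]; exact h3, by rw [h2]; exact h4⟩, Or.inl ⟨h1, h2⟩⟩
  · rw [Plain.fst_eq] at h1
    rw [Plain.snd_eq] at h2
    exact ⟨e, ⟨by rw [h1]; exact h3, by rw [h2]; exact h4⟩, Or.inr ⟨h1, h2⟩⟩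

/-- A vertex of `K` near a path off `B` is near a vertex of the frontier. -/
theorem near {K B Q : Set Vtx} {w x q : Vtx} (hKB : K ⊆ B) (hw : w ∈ K) (hx : sd x w ≤ 2)
    (hxB : x ∉ B) (hloc : ∀ y, sd y w ≤ 2 → y ∈ B → y ∈ K) (hq : q ∈ Q)
    (hp : Reach {e | src e ∉ B ∧ tgt e ∉ B} x q) : ∃ w', AccS K B Q w' ∧ sd w w' ≤ 2 := by
  have h1 : Reach {e | sd (src e) w ≤ 2 ∧ sd (tgt e) w ≤ 2} x w :=
    Run7.h561.ball_path w 2 hx (by unfold sd; simp) fun y hy => hy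
  obtain ⟨p, w', a1, a2, a3, a4, -⟩ := Run7.h561.first_hit K h1 (fun h => hxB (hKB h)) hw
  have a6 : sd p w ≤ 2 ∧ sd w' w ≤ 2 := by
    obtain ⟨e, ⟨he1, he2⟩, ⟨rfl, rfl⟩ | ⟨rfl, rfl⟩⟩ := a3
    · exact ⟨he1, he2⟩
    · exact ⟨he2, he1⟩
  refine ⟨w', ⟨a1, ?_⟩, by rw [sd_comm]; exact a6.2⟩
  obtain ⟨e, -, he⟩ := a3
  refine ⟨e, p, q, ?_, fun h => a2 (hloc p a6.1 h), hq, ?_⟩
  · rw [Plain.fst_eq, Plain.snd_eq]
    exact he.symm
  · refine Reach.trans (Reach.symm (a4.mono ?_)) hp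
    rintro e ⟨⟨h2, h3⟩, h4, h5⟩
    exact ⟨fun h => h4 (hloc _ h2 h), fun h => h5 (hloc _ h3 h)⟩

/-- Symmetries. -/
theorem AccS_sym (g : LSym) {K B Q K2 B2 Q2 : Set Vtx} (hK : ∀ v, v ∈ K → g.ψ v ∈ K2)
    (hB : ∀ v, g.ψ v ∈ B2 → v ∈ B) (hQ : ∀ v, v ∈ Q → g.ψ v ∈ Q2) {w : Vtx}
    (h : AccS K B Q w) : AccS K2 B2 Q2 (g.ψ w) := by
  obtain ⟨h1, e, p, q, h2, h3, h4, h5⟩ := h
  refine ⟨hK _ h1, g.φ e, g.ψ p, g.ψ q, ?_, fun h => h3 (hB _ h), hQ _ h4, ?_⟩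
  · rw [Plain.fst_eq, Plain.snd_eq] at h2 ⊢
    rcases g.compat e with ⟨a1, a2⟩ | ⟨a1, a2⟩ <;> rcases h2 with ⟨rfl, rfl⟩ | ⟨rfl, rfl⟩
    · exact Or.inl ⟨a1, a2⟩
    · exact Or.inr ⟨a1, a2⟩
    · exact Or.inr ⟨a1, a2⟩
    · exact Or.inl ⟨a1, a2⟩
  · refine (g.reach h5).mono ?_
    rintro _ ⟨e, ⟨b1, b2⟩, rfl⟩
    rcases g.compat e with ⟨a1, a2⟩ | ⟨a1, a2⟩
    · simp only [Set.mem_setOf_eq]
      rw [a1, a2]
      exact ⟨fun h => b1 (hB _ h), fun h => b2 (hB _ h)⟩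
    · simp only [Set.mem_setOf_eq]
      rw [a1, a2]
      exact ⟨fun h => b2 (hB _ h), fun h => b1 (hB _ h)⟩

/-- The vertices which are joined to a set `W`. -/
def KW (W : Set Vtx) (F : Set Edg) : Set Vtx := {v | ∃ w : Vtx, w ∈ W ∧ Reach F w v}

theorem KW_sub (W : Set Vtx) (F : Set Edg) : W ⊆ KW W F := fun w hw => ⟨w, hw, Reach.refl _ _⟩

theorem KW_mem {W : Set Vtx} {F : Set Edg} {v w : Vtx} (h : v ∈ KW W F) (h2 : Reach F v w) :
    w ∈ KW W F := by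
  obtain ⟨x, hx, hxv⟩ := h
  exact ⟨x, hx, Reach.trans hxv h2⟩

/-- one more edge, which leads to a vertex which meets no other edge -/
theorem insert_reach {F : Set Edg} {e0 : Edg} {u0 x' : Vtx}
    (he0 : (src e0 = u0 ∧ tgt e0 = x') ∨ (src e0 = x' ∧ tgt e0 = u0))
    (hx' : ∀ e ∈ F, src e ≠ x' ∧ tgt e ≠ x') {y : Vtx} (h : Reach (insert e0 F) u0 y) :
    Reach F u0 y ∨ y = x' := by
  induction h with
  | refl => exact Or.inl (Reach.refl _ _)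
  | @tail y z _ h2 ih =>
    obtain ⟨e, he, hc⟩ := h2
    rcases he with rfl | he
    · rcases he0 with ⟨h3, h4⟩ | ⟨h3, h4⟩ <;> rcases hc with ⟨h5, h6⟩ | ⟨h5, h6⟩
      · right; rw [← h6, h4]
      · left; rw [← h5, h3]; exact Reach.refl _ _
      · left; rw [← h6, h4]; exact Reach.refl _ _
      · right; rw [← h5, h3]
    · rcases ih with ih | ih
      · left
        exact Reach.trans ih (Adj.reach ⟨e, he, hc⟩)
      · exfalso
        have := hx' e he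
        rcases hc with ⟨h5, h6⟩ | ⟨h5, h6⟩
        · exact this.1 (h5.trans ih)
        · exact this.2 (h6.trans ih)

/-- A frontier vertex has three arms. -/
theorem three_arms {n : ℕ} {F : Finset Edg} (hF : F ⊆ RE 0 n 0 n) {W B Q : Set Vtx}
    (hW : ∀ u ∈ W, u ∈ Plain.box n → ∃ (e0 : Edg) (x' : Vtx),
      ((src e0 = u ∧ tgt e0 = x') ∨ (src e0 = x' ∧ tgt e0 = u)) ∧ x' ∉ Plain.box n ∧ x' ∈ B)
    (hWb : ∀ u ∈ W, u ∈ Plain.box n) (hKB : KW W (↑F : Set Edg) ⊆ B)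
    (hQ : ∀ q ∈ Q, q ∉ Plain.box n) {w : Vtx} {k : ℕ} (hk1 : 1 ≤ k) (hk : (k : ℤ) ≤ bdist n w)
    (h : AccS (KW W (↑F : Set Edg)) B Q w) : A3v w 1 k (↑F : Set Edg) := by
  classical
  obtain ⟨⟨u0, hu0, hu0w⟩, e, p, q, he, hp, hq, hpq⟩ := h
  obtain ⟨e0, x', he0, hx'b, hx'B⟩ := hW u0 hu0 (hWb u0 hu0)
  have hbx : ∀ y, BX w k y → y ∈ Plain.box n := by
    intro y hy
    rw [mem_box]
    unfold BX inR at hy
    unfold bdist at hk
    omega
  have hxF : ∀ e ∈ (↑F : Set Edg), src e ≠ x' ∧ tgt e ≠ x' := by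
    intro e he
    have h1 := Run7.h561.mem_RE.1 (hF (by exact_mod_cast he))
    constructor
    · rintro rfl
      exact hx'b (mem_box.2 h1.1)
    · rintro rfl
      exact hx'b (mem_box.2 h1.2)
  have hadj : Reach (insert e0 (↑F : Set Edg)) u0 x' := by
    refine Adj.reach ⟨e0, Or.inl rfl, ?_⟩
    rcases he0 with h1 | h1
    · exact Or.inl h1
    · exact Or.inr h1
  have hww : BX w 1 w := by
    unfold BX inR
    omega
  have hpw : BX w 1 p := by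
    obtain ⟨x, y, t⟩ := e
    obtain ⟨w1, w2⟩ := w
    obtain ⟨p1, p2⟩ := p
    unfold BX inR
    unfold Plain.fst Plain.snd at he
    cases t
    · simp only [Bool.false_eq_true, if_false, Prod.mk.injEq] at he
      simp only [Nat.cast_one]
      omega
    · simp only [if_true, Prod.mk.injEq] at he
      simp only [Nat.cast_one]
      omega
  have hoff : ∀ y, y ∉ B → ¬ Reach (insert e0 (↑F : Set Edg)) u0 y := by
    intro y hy h1
    rcases insert_reach he0 hxF h1 with h2 | h2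
    · exact hy (hKB ⟨u0, hu0, h2⟩)
    · exact hy (h2 ▸ hx'B)
  have main : A3v w 1 k (↑(insert e0 F) : Set Edg) := by
    rw [Finset.coe_insert]
    refine A3v_of (v := u0) (x := w) (x' := x') (w := p) (w' := q) hk1 hww
      (hu0w.mono (Set.subset_insert _ _)) (fun h => hx'b (hbx _ h)) hadj hpw
      (fun h => hQ q hq (hbx _ h)) (hpq.mono ?_)
    rintro e ⟨h1, h2⟩
    exact ⟨hoff _ h1, hoff _ h2⟩
  rw [A3v_local w 1 k] at main ⊢
  have e1 : insert e0 F ∩ (blk w k \ blk w 1) = F ∩ (blk w k \ blk w 1) := by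
    ext e
    rw [Finset.mem_inter, Finset.mem_inter, Finset.mem_insert]
    constructor
    · rintro ⟨rfl | h1, h2⟩
      · exfalso
        have h3 := (Finset.mem_sdiff.1 h2).1
        have h4 := H731C.RE_ends h3
        rcases he0 with ⟨-, h5⟩ | ⟨h5, -⟩
        · rw [h5] at h4; exact hx'b (hbx _ h4.2)
        · rw [h5] at h4; exact hx'b (hbx _ h4.1)
      · exact ⟨h1, h2⟩
    · rintro ⟨h1, h2⟩
      exact ⟨Or.inr h1, h2⟩
  rw [e1] at main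
  exact main

open Classical in
/-- The number of frontier vertices is bounded by the number of vertices with three arms. -/
theorem fr_le {n : ℕ} {F : Finset Edg} (hF : F ⊆ RE 0 n 0 n) {W B Q : Set Vtx}
    (hW : ∀ u ∈ W, u ∈ Plain.box n → ∃ (e0 : Edg) (x' : Vtx),
      ((src e0 = u ∧ tgt e0 = x') ∨ (src e0 = x' ∧ tgt e0 = u)) ∧ x' ∉ Plain.box n ∧ x' ∈ B)
    (hWb : ∀ u ∈ W, u ∈ Plain.box n) (hKB : KW W (↑F : Set Edg) ⊆ B)
    (hQ : ∀ q ∈ Q, q ∉ Plain.box n) :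
    ((((Plain.box n).filter (fun w => AccS (KW W (↑F : Set Edg)) B Q w)).card : ℕ) : ℝ) ≤
      Nb (xs n) (n + 1) 0 0 F := by
  set A := (Plain.box n).filter (fun w => AccS (KW W (↑F : Set Edg)) B Q w) with hA
  have hsub : A ⊆ Bq 0 0 (n + 1) := by
    intro w hw
    rw [hA, Finset.mem_filter, mem_box] at hw
    rw [mem_Bq]
    push_cast
    omega
  unfold Nb
  calc ((A.card : ℕ) : ℝ) = ∑ w ∈ A, (1:ℝ) := by simp
    _ ≤ ∑ w ∈ A, xs n (n + 1) w F := by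
        apply Finset.sum_le_sum
        intro w hw
        rw [hA, Finset.mem_filter] at hw
        obtain ⟨hwb, hw2⟩ := hw
        unfold xs
        rw [if_pos hwb, ind_of]
        by_cases hk0 : kk n (n + 1) w ≤ 0
        · exact Or.inl hk0
        right
        have hkb : kk n (n + 1) w ≤ bdist n w := min_le_right _ _
        have hkn : (((kk n (n + 1) w).toNat : ℕ) : ℤ) = kk n (n + 1) w :=
          Int.toNat_of_nonneg (by omega)
        exact three_arms hF hW hWb hKB hQ (by omega) (by rw [hkn]; exact hkb) hw2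
    _ ≤ _ := by
        apply Finset.sum_le_sum_of_subset_of_nonneg hsub
        intro w _ _
        unfold xs
        split_ifs
        · exact ind_nonneg _
        · exact le_rfl

/-- The tail of the number of vertices with three arms. -/
theorem up_tail {C : ℝ} (hC : 1 ≤ C) (hU : ∀ (c : ℤ × ℤ) (k : ℕ), 1 ≤ k → ∀ S : Finset Edg,
    blk c k ⊆ S → PQ (1/2) S (fun F => A3v c 1 k ↑F) ≤ C * (k : ℝ) ^ (-(2/3):ℝ)) :
    ∃ K c : ℝ, 0 < K ∧ 0 < c ∧ ∀ n : ℕ, 1 ≤ n → ∀ x : ℝ, 0 ≤ x →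
      PQ (1/2) (RE 0 n 0 n) (fun F => x * (n:ℝ) ^ (4/3:ℝ) ≤ Nb (xs n) (n + 1) 0 0 F) ≤
        K * Real.exp (-(c * x ^ 3)) := by
  obtain ⟨l, hl, ht⟩ := TH992.T.tail1 (a := 2/3) (C0 := 40 * C) (by norm_num) (by norm_num) 1
    (by linarith)
  refine ⟨9, 1 / (16 * l ^ 3), by norm_num, by positivity, fun n hn x hx => ?_⟩
  have hn0 : (0:ℝ) < n := by exact_mod_cast hn
  have hs0 : (0:ℝ) < ((n + 1 : ℕ) : ℝ) := by positivity
  have h4 := ht _ _ _ (xs_fam hC hU n) (n + 1) 0 0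
    (x * (n:ℝ) ^ (4/3:ℝ) / ((n + 1 : ℕ) : ℝ) ^ (2 - 2/3:ℝ)) (by omega) (by positivity)
  have e0 : (2 / (2/3:ℝ)) = ((3:ℕ):ℝ) := by norm_num
  rw [e0, Real.rpow_natCast] at h4
  refine le_trans (Pr_mono ok2 fun F _ hF => ?_) (h4.trans ?_)
  · unfold Yb
    exact div_le_div_of_nonneg_right hF (by positivity)
  · apply mul_le_mul_of_nonneg_left _ (by norm_num)
    apply Real.exp_le_exp.2
    have e1 : (x * (n:ℝ) ^ (4/3:ℝ) / ((n + 1 : ℕ) : ℝ) ^ (2 - 2/3:ℝ) / l) ^ 3 =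
        x ^ 3 * ((n:ℝ) / ((n + 1 : ℕ) : ℝ)) ^ 4 / l ^ 3 := by
      rw [div_pow, div_pow, mul_pow]
      have e2 : ((n:ℝ) ^ (4/3:ℝ)) ^ 3 = (n:ℝ) ^ 4 := by
        rw [← Real.rpow_natCast, ← Real.rpow_mul hn0.le]
        norm_num
      have e3 : (((n + 1 : ℕ) : ℝ) ^ (2 - 2/3:ℝ)) ^ 3 = ((n + 1 : ℕ) : ℝ) ^ 4 := by
        rw [← Real.rpow_natCast, ← Real.rpow_mul hs0.le]
        norm_num
      rw [e2, e3, div_pow]
      ring
    rw [e1]
    have h5 : (1/2:ℝ) ≤ (n:ℝ) / ((n + 1 : ℕ) : ℝ) := by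
      rw [le_div_iff₀ hs0]
      have : (1:ℝ) ≤ n := by exact_mod_cast hn
      push_cast
      linarith
    have h6 : (1/2:ℝ) ^ 4 ≤ ((n:ℝ) / ((n + 1 : ℕ) : ℝ)) ^ 4 := pow_le_pow_left₀ (by norm_num) h5 4
    have h7 : 1 / (16 * l ^ 3) * x ^ 3 = x ^ 3 * (1/2:ℝ) ^ 4 / l ^ 3 := by
      ring
    rw [h7]
    have h8 : x ^ 3 * (1/2:ℝ) ^ 4 / l ^ 3 ≤ x ^ 3 * ((n:ℝ) / ((n + 1 : ℕ) : ℝ)) ^ 4 / l ^ 3 :=
      div_le_div_of_nonneg_right (mul_le_mul_of_nonneg_left h6 (by positivity)) (by positivity)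
    linarith

end Run7.h537.FL
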