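import Pool.Agent.Run7.h537.FL.Core2
import Pool.Agent.Run7.h537.FL.Front

/-! The number of frontier vertices of the comb under an arch. -/

set_option autoImplicit false

namespace Run7.h537.FL

open H974 H12S Finset H984P H984N H342P
open Run7.h561 Run7.h561.SURG Run7.h537.AT

/-- under the arch -/
def Arch (a m I J : ℕ) (y : Vtx) : Prop :=
  (16 * ((a : ℤ) * m) - m < y.1 ∧ y.1 < 256 * ((I : ℤ) * (a * m)) + 2 * (a * m) + m) ∧
    0 ≤ y.2 ∧ y.2 < 24 * ((a : ℤ) * m) + 32 * ((J : ℤ) * (a * m)) + m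

open Classical in
theorem fr_count {t : ℝ} {M B a b m I J : ℕ} {p c0 E0 : ℝ} {G : Finset Edg → Prop}
    (hG : Gad t M B a m p c0 E0 G) (hab : a = 2 * b) (ha : 24 ≤ a) (hm : 1 ≤ m) (hI : 1 ≤ I)
    (hJ : 1 ≤ J) {F : Finset Edg} (hF : ∀ e ∈ F, 0 ≤ (src e).2 ∧ 0 ≤ (tgt e).2)
    (hcomb : Comb a b m I J G F) {X0 X1 N : ℤ} (hX0 : X0 ≤ 0)
    (hX1 : 256 * ((I : ℤ) * (a * m)) + 3 * (a * m) ≤ X1)
    (hN : 32 * ((J : ℤ) * (a * m)) + 25 * (a * m) ≤ N)
    (hR1 : LRc X0 X1 (24 * ((a : ℤ) * m) + 32 * ((J : ℤ) * (a * m)) - m)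
      (24 * ((a : ℤ) * m) + 32 * ((J : ℤ) * (a * m)) + m) F)
    (hR2 : TBc (16 * ((a : ℤ) * m) - m) (16 * ((a : ℤ) * m) + m) 0 N F)
    (hR3 : TBc (256 * ((I : ℤ) * (a * m)) + 2 * (a * m) - m)
      (256 * ((I : ℤ) * (a * m)) + 2 * (a * m) + m) 0 N F)
    {W O Q : Set Vtx} {bx : Finset Vtx} (h1 : ∀ y, y ∈ W ∨ y ∈ O → ¬ Arch a m I J y)
    (h2 : ∀ (u : Vtx) (s : ℤ), (24 * ((a : ℤ) * m) + 32 * ((J : ℤ) * (a * m)) - m ≤ s ∧
        s ≤ 24 * ((a : ℤ) * m) + 32 * ((J : ℤ) * (a * m)) + m) → (X0, s) ∈ Cu (↑F : Set Edg) u →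
        ∃ w0 ∈ W, w0 ∈ Cu (↑F : Set Edg) u)
    (h3 : ∀ z : Vtx, Arch a m I J z → z.2 = 0 → (z.1, (-1 : ℤ)) ∈ Q ∧ (z.1, (-1 : ℤ)) ∉ O)
    (h4 : ∀ w ∈ KW W (↑F : Set Edg), w ∈ bx ∧ 0 ≤ w.2)
    (h5 : ∀ y : Vtx, ((16 * ((a : ℤ) * m) ≤ y.1 ∧ y.1 ≤ 256 * ((I : ℤ) * (a * m))) ∧
      0 ≤ y.2 ∧ y.2 ≤ 32 * ((J : ℤ) * (a * m)) + a * m) → y ∉ O) :
    ((I * J : ℕ) : ℝ) * (c0 * (m : ℝ) ^ (4 / 3 : ℝ)) ≤
      25 * (((bx.filter (fun w => AccS (KW W (↑F : Set Edg)) (KW W (↑F : Set Edg) ∪ O) Q w)).card :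
        ℕ) : ℝ) := by
  obtain ⟨u, hu2, ⟨s, hs, hs2⟩, V, hV1, hV2⟩ := core hG hab ha hm hI hJ hF hcomb hX0 hX1 hN
    hR1 hR2 hR3
  obtain ⟨w0, hw0, hw0u⟩ := h2 u s hs hs2
  set K := KW W (↑F : Set Edg) with hK
  have hCK : ∀ v, v ∈ Cu (↑F : Set Edg) u → v ∈ K := fun v hv =>
    ⟨w0, hw0, Reach.trans (Reach.symm hw0u) hv⟩
  set Acc' := bx.filter (fun w => AccS K (K ∪ O) Q w) with hAcc
  have hsub : V ⊆ Acc'.biUnion (fun w => ctr w 2) := by
    intro w hw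
    obtain ⟨c1, ⟨⟨b1, b2⟩, b3, b4⟩, x, z, c2, c3, c4, c5, c6⟩ := hV2 w hw
    -- vertices reached from `x` are not in `K ∪ O`
    have key : ∀ y, Reach (offC (Cu (↑F : Set Edg) u)) x y → y ∉ K ∪ O := by
      intro y hy
      rintro (h6 | h6)
      · obtain ⟨w1, hw1, hw2⟩ := h6
        have h7 : y ∉ Cu (↑F : Set Edg) u := offC_off hy c3
        have h8 : Reach (offC (Cu (↑F : Set Edg) u)) y w1 := by
          refine (reach_restrict' (P := fun v => v ∉ Cu (↑F : Set Edg) u) (Reach.symm hw2)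
            fun v hv h9 => h7 (Reach.trans h9 (Reach.symm hv))).mono ?_
          rintro e ⟨e1, e2, e3⟩
          exact ⟨⟨e2, e3⟩, hF e (by exact_mod_cast e1)⟩
        exact h1 w1 (Or.inl hw1) (c6 _ (Reach.trans hy h8))
      · exact h1 y (Or.inr h6) (c6 _ hy)
    have hz : Arch a m I J z := c6 _ c5
    obtain ⟨h6, h7⟩ := h3 z hz c4
    obtain ⟨w', d1, d2⟩ := near (K := K) (B := K ∪ O) (Q := Q) (w := w) (x := x)
      (q := (z.1, -1)) Set.subset_union_left (hCK w c1) c2 (key x (Reach.refl _ _)) (by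
        intro y hy hyB
        rcases hyB with h8 | h8
        · exact h8
        · exfalso
          have h9 := sd_le.1 hy
          exact h5 y ⟨⟨by omega, by omega⟩, by omega, by omega⟩ h8) h6 (by
        have e1 := reach_restrict' (P := fun v => v ∉ K ∪ O) c5 key
        refine Reach.trans (e1.mono fun e he => he.2) (Adj.reach ?_)
        refine ⟨(z.1, -1, false), ⟨?_, ?_⟩, Or.inr ⟨rfl, ?_⟩⟩
        · rintro (h8 | h8)
          · have := (h4 _ h8).2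
            simp at this
          · exact h7 h8
        · have e2 : tgt ((z.1, -1, false) : Edg) = z := by
            simp only [tgt_false]
            ext
            · rfl
            · simp only; omega
          rw [e2]
          exact key z c5
        · simp only [tgt_false]
          ext
          · rfl
          · simp only; omega)
    rw [Finset.mem_biUnion]
    refine ⟨w', ?_, Run7.h561.mem_ctr.2 d2⟩
    rw [hAcc, Finset.mem_filter]
    exact ⟨(h4 _ d1.1).1, d1⟩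
  have hcard : V.card ≤ 25 * Acc'.card := by
    refine (Finset.card_le_card hsub).trans (Finset.card_biUnion_le.trans ?_)
    simp only [ctr2, Finset.sum_const, smul_eq_mul]
    rw [mul_comm]
  refine hV1.trans ?_
  exact_mod_cast hcard

end Run7.h537.FL
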