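import Pool.Agent.Run7.h537.FL.Sep

/-! The comb under an arch: paths from the gadgets to the line `y = 0` which avoid the cluster. -/

set_option autoImplicit false

namespace Run7.h537.FL

open H974 H12S Finset H984P H984N H342P
open Run7.h561 Run7.h561.SURG Run7.h537.AT

/-- A gadget which is connected to the cluster and whose exit leads to the line `y = 0`. -/
theorem gad_path {t : ℝ} {M B a m : ℕ} {p c0 E0 : ℝ} {G : Finset Edg → Prop}
    (hG : Gad t M B a m p c0 E0 G) {F : Finset Edg}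
    (hF : ∀ e ∈ F, 0 ≤ (src e).2 ∧ 0 ≤ (tgt e).2) {c z : Vtx}
    (hm : 1 ≤ m) (hz0 : 0 ≤ z.2)
    (hGF : G ((trl (-c.1) (-c.2)).mp F)) (hq : ∃ x ∈ ctr (tr c (q1 a m)) m, x ∈ Cu (↑F : Set Edg) z)
    (hfar : ∃ y, (200 * (a * m) : ℤ) ≤ sd y c ∧ y ∈ Cu (↑F : Set Edg) z)
    (hc : 128 * ((a : ℤ) * m) + m + 2 ≤ c.2) (hc2 : -1 ≤ c.2 - 136 * (a * m))
    (hslit : ∀ s : ℤ, 0 ≤ s → s ≤ c.2 - 136 * (a * m) → (c.1, s) ∉ Cu (↑F : Set Edg) z) :
    ∃ V : Finset Vtx, V ⊆ ctr (tr c (v0 a m)) m ∧ c0 * (m : ℝ) ^ (4 / 3 : ℝ) ≤ V.card ∧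
      ∀ v ∈ V, v ∈ Cu (↑F : Set Edg) z ∧ ∃ x w : Vtx, sd x v ≤ 2 ∧ x ∉ Cu (↑F : Set Edg) z ∧
        w.2 = 0 ∧ Reach (offC (Cu (↑F : Set Edg) z)) x w := by
  classical
  obtain ⟨x, hx1, hx2⟩ := hq
  obtain ⟨y, hy2, hy1⟩ := hfar
  set U : ℤ := (a : ℤ) * m with hU
  set C : Set Vtx := Cu (↑F : Set Edg) z with hC
  have hpos : ∀ c ∈ C, 0 ≤ c.2 := fun c hc =>
    Run7.h561.reach_mem (A := {v : Vtx | 0 ≤ v.2}) (fun e he => hF e (by exact_mod_cast he))
      hc hz0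
  have hz2 : ∀ s : ℤ, s ≤ c.2 - 136 * U → (c.1, s) ∉ C := by
    intro s hs h
    rcases lt_or_ge s 0 with h1 | h1
    · have := hpos _ h
      simp only at this
      omega
    · exact hslit s h1 hs h
  set F0 : Finset Edg := (trl (-c.1) (-c.2)).mp F with hF0
  have hsh : ∀ {a b : Vtx}, Reach (↑F : Set Edg) a b →
      Reach (↑F0 : Set Edg) (a.1 - c.1, a.2 - c.2) (b.1 - c.1, b.2 - c.2) := fun {a b} h1 => by
    have := (BS_reach_trl (-c.1) (-c.2) (F := F) (u := a) (v := b)).2 h1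
    simpa [sub_eq_add_neg] using this
  have hush : ∀ {a b : Vtx}, Reach (↑F0 : Set Edg) a b →
      Reach (↑F : Set Edg) (a.1 + c.1, a.2 + c.2) (b.1 + c.1, b.2 + c.2) := fun {a b} h1 => by
    apply (BS_reach_trl (-c.1) (-c.2) (F := F) (u := (a.1 + c.1, a.2 + c.2))
      (v := (b.1 + c.1, b.2 + c.2))).1
    simpa using h1
  set u0 : Vtx := (z.1 - c.1, z.2 - c.2) with hu0
  obtain ⟨V, hV1, hV2, -, hV3⟩ := hG.det F0 u0 hGF
    ⟨(x.1 - c.1, x.2 - c.2), by
      rw [Run7.h561.mem_ctr, sd_le] at hx1 ⊢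
      simp only [tr] at hx1 ⊢
      omega, hsh hx2⟩
    ⟨(y.1 - c.1, y.2 - c.2), by
      rw [far_iff, le_sd]
      rw [le_sd] at hy2
      simp only
      push_cast
      omega, hsh hy1⟩
  have hCeq : ∀ d : Vtx, d ∈ Cu (↑F0 : Set Edg) u0 ↔ (d.1 + c.1, d.2 + c.2) ∈ C := by
    intro d
    constructor
    · intro hc
      have h1 := hush hc
      have h2 : Reach (↑F : Set Edg) z (d.1 + c.1, d.2 + c.2) := by simpa [hu0] using h1
      exact h2
    · intro hc
      have h1 := hsh hc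
      have h2 : Reach (↑F0 : Set Edg) u0 d := by simpa [hu0] using h1
      exact h2
  have key : ∀ v ∈ V, (v.1 + c.1, v.2 + c.2) ∈ C ∧ ∃ x w : Vtx,
      sd x (v.1 + c.1, v.2 + c.2) ≤ 2 ∧ x ∉ C ∧ w.2 = 0 ∧ Reach (offC C) x w := by
    intro v hv
    obtain ⟨k1, x', k2, k3⟩ := hV3 v hv
    rw [mem_bdB] at k2
    have k4 : Reach {e | src e ∉ Cu (↑F0 : Set Edg) u0 ∧ tgt e ∉ Cu (↑F0 : Set Edg) u0} x' (s0 a m) := by
      refine k3.mono ?_
      rintro e ⟨h1, h2⟩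
      exact ⟨cln_off hm h1, cln_off hm h2⟩
    have k5 : Reach {e | src e ∉ C ∧ tgt e ∉ C} (x'.1 + c.1, x'.2 + c.2)
        ((s0 a m).1 + c.1, (s0 a m).2 + c.2) := by
      refine reach_trans_set (P := fun d => d ∉ Cu (↑F0 : Set Edg) u0) (Q := fun d => d ∉ C)
        c ?_ k4
      intro d hd hd2
      exact hd ((hCeq d).2 hd2)
    have hx'C : (x'.1 + c.1, x'.2 + c.2) ∉ C := by
      rcases reach_cases k5 with h1 | ⟨w', ⟨e, ⟨h1, h2⟩, h3⟩, -⟩
      · rw [h1]
        intro h2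
        have := hz2 ((s0 a m).2 + c.2) (by simp only [s0]; omega)
        apply this
        simpa [s0] using h2
      · rcases h3 with ⟨h3, -⟩ | ⟨-, h3⟩
        · rw [← h3]; exact h1
        · rw [← h3]; exact h2
    have k6 : Reach {e | src e ∉ C ∧ tgt e ∉ C} ((s0 a m).1 + c.1, (s0 a m).2 + c.2)
        (c.1, -1) := by
      have e1 : ((s0 a m).1 + c.1, (s0 a m).2 + c.2) = (c.1, c.2 - 136 * U) := by
        simp only [s0, zero_add]
        ext
        · rfl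
        · simp only; rw [hU]; ring
      rw [e1]
      refine vseg (P := fun d => d ∉ C) fun s s1 s2 => ?_
      have l2 := le_max_iff.1 s2
      refine hz2 s ?_
      rcases l2 with l2 | l2
      · omega
      · omega
    have hxv : sd ((x'.1 + c.1, x'.2 + c.2) : Vtx) (v.1 + c.1, v.2 + c.2) ≤ 2 := by
      have := sd_le.1 k2.le
      rw [sd_le]
      simp only
      push_cast at this
      omega
    have hv0 : (v.1 + c.1, v.2 + c.2) ∈ ctr (tr c (v0 a m)) m := by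
      have h1 := hV1 hv
      rw [Run7.h561.mem_ctr, sd_le] at h1 ⊢
      simp only [tr]
      omega
    obtain ⟨w', w, a1, a2, a3, a4, -⟩ := Run7.h561.first_hit {v : Vtx | v.2 < 0} (k5.trans k6)
      (by
        rw [Run7.h561.mem_ctr, sd_le] at hv0
        rw [sd_le] at hxv
        simp only [tr, v0, Set.mem_setOf_eq, not_lt] at hv0 hxv ⊢
        omega) (by simp)
    simp only [Set.mem_setOf_eq, not_lt] at a1 a2 a4
    refine ⟨(hCeq v).1 k1, _, w', hxv, hx'C, ?_, a4.mono ?_⟩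
    · have := Pool.Agent.W424.OD.adj_near a3
      omega
    · rintro e ⟨h1, h2, h3⟩
      exact ⟨h1, h2, h3⟩
  refine ⟨V.image (fun v : Vtx => (v.1 + c.1, v.2 + c.2)), ?_, ?_, ?_⟩
  · intro w hw
    rw [Finset.mem_image] at hw
    obtain ⟨v, hv, rfl⟩ := hw
    have h1 := hV1 hv
    rw [Run7.h561.mem_ctr, sd_le] at h1 ⊢
    simp only [tr]
    omega
  · rw [Finset.card_image_of_injective]
    · exact hV2
    · intro v1 v2 h12
      simp only [Prod.mk.injEq] at h12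
      ext
      · omega
      · omega
  · intro w hw
    rw [Finset.mem_image] at hw
    obtain ⟨v, hv, rfl⟩ := hw
    exact key v hv

end Run7.h537.FL
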