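import Pool.Agent.Run7.h537.FL.Core

/-! The comb under an arch. -/

set_option autoImplicit false

namespace Run7.h537.FL

open H974 H12S Finset H984P H984N H342P
open Run7.h561 Run7.h561.SURG Run7.h537.AT

/-- The comb under an arch. -/
theorem core {t : ℝ} {M B a b m I J : ℕ} {p c0 E0 : ℝ} {G : Finset Edg → Prop}
    (hG : Gad t M B a m p c0 E0 G) (hab : a = 2 * b) (ha : 24 ≤ a) (hm : 1 ≤ m) (hI : 1 ≤ I)
    (hJ : 1 ≤ J) {F : Finset Edg} (hF : ∀ e ∈ F, 0 ≤ (src e).2 ∧ 0 ≤ (tgt e).2)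
    (hcomb : Comb a b m I J G F) {X0 X1 N : ℤ} (hX0 : X0 ≤ 0)
    (hX1 : 256 * ((I : ℤ) * (a * m)) + 3 * (a * m) ≤ X1)
    (hN : 32 * ((J : ℤ) * (a * m)) + 25 * (a * m) ≤ N)
    (hR1 : LRc X0 X1 (24 * ((a : ℤ) * m) + 32 * ((J : ℤ) * (a * m)) - m)
      (24 * ((a : ℤ) * m) + 32 * ((J : ℤ) * (a * m)) + m) F)
    (hR2 : TBc (16 * ((a : ℤ) * m) - m) (16 * ((a : ℤ) * m) + m) 0 N F)
    (hR3 : TBc (256 * ((I : ℤ) * (a * m)) + 2 * (a * m) - m)
      (256 * ((I : ℤ) * (a * m)) + 2 * (a * m) + m) 0 N F) :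
    ∃ u : Vtx, 0 ≤ u.2 ∧ (∃ s, (24 * ((a : ℤ) * m) + 32 * ((J : ℤ) * (a * m)) - m ≤ s ∧
        s ≤ 24 * ((a : ℤ) * m) + 32 * ((J : ℤ) * (a * m)) + m) ∧
        (X0, s) ∈ Cu (↑F : Set Edg) u) ∧
      ∃ W : Finset Vtx, ((I * J : ℕ) : ℝ) * (c0 * (m : ℝ) ^ (4 / 3 : ℝ)) ≤ W.card ∧
        ∀ w ∈ W, w ∈ Cu (↑F : Set Edg) u ∧
          ((16 * ((a : ℤ) * m) + 3 ≤ w.1 ∧ w.1 + 3 ≤ 256 * ((I : ℤ) * (a * m))) ∧
            3 ≤ w.2 ∧ w.2 + 3 ≤ 32 * ((J : ℤ) * (a * m)) + a * m) ∧
          ∃ x z : Vtx, sd x w ≤ 2 ∧ x ∉ Cu (↑F : Set Edg) u ∧ z.2 = 0 ∧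
            Reach (offC (Cu (↑F : Set Edg) u)) x z ∧
            ∀ y, Reach (offC (Cu (↑F : Set Edg) u)) x y →
              (16 * ((a : ℤ) * m) - m < y.1 ∧
                y.1 < 256 * ((I : ℤ) * (a * m)) + 2 * (a * m) + m) ∧
              0 ≤ y.2 ∧ y.2 < 24 * ((a : ℤ) * m) + 32 * ((J : ℤ) * (a * m)) + m := by
  classical
  obtain ⟨hO, hD, hM⟩ := hcomb
  have ham : 24 * m ≤ a * m := Nat.mul_le_mul_right m ha
  have hmU : 24 * (m : ℤ) ≤ (a : ℤ) * m := by exact_mod_cast ham
  have hm' : (1 : ℤ) ≤ m := by exact_mod_cast hm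
  have hm0 : (0 : ℤ) ≤ m := by omega
  have hab' : (a : ℤ) = 2 * b := by exact_mod_cast hab
  have hb0 : (0 : ℤ) ≤ b := by positivity
  set U : ℤ := (a : ℤ) * m with hU
  have hbm : (m : ℤ) * b * 2 = U := by rw [hU, hab']; ring
  have hcz : ∀ q, OA a m I J (Run7.h561.cell m q) →
      ∃ z, Cz (tr (0, 0) (Run7.h561.cell m q)) m (↑F : Set Edg) z := by
    intro q hq
    rw [tr0]
    exact t_CZ _ _ F hm (hO q ((mem_OC hab hm hJ ham).2 hq))
  set H : ℤ := (24 + 32 * (J : ℤ)) * b with hH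
  have hmH : 2 * ((m : ℤ) * H) = 24 * U + 32 * (J * U) := by
    rw [hH, ← hbm]; ring
  have hI16 : 16 * (b : ℤ) ≤ 256 * ((I : ℤ) * b) := by
    have : (1 : ℤ) * b ≤ I * b := mul_le_mul_of_nonneg_right (by exact_mod_cast hI) hb0
    omega
  -- the first hub
  obtain ⟨z0, hz0⟩ := hcz (16 * b, H) (oa_spine hab le_rfl hI16)
  obtain ⟨s0', l1, l2, l3⟩ := hz0.line
  rw [tr0] at l1 l2 l3
  simp only [Run7.h561.cell] at l1 l2 l3
  set u : Vtx := (2 * (m * (16 * b)), s0') with hu
  have e16 : 2 * ((m : ℤ) * (16 * b)) = 16 * U := by rw [← hbm]; ring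
  have IU : U ≤ I * U := by
    have : (1 : ℤ) * U ≤ I * U := mul_le_mul_of_nonneg_right (by exact_mod_cast hI) (by positivity)
    omega
  have JU : U ≤ J * U := by
    have : (1 : ℤ) * U ≤ J * U := mul_le_mul_of_nonneg_right (by exact_mod_cast hJ) (by positivity)
    omega
  have hu2 : 0 ≤ u.2 := by
    rw [hu]
    simp only
    omega
  have g0 : Gd (0, 0) m (↑F : Set Edg) u (16 * b, H) := ⟨z0, hz0, l3⟩
  have gs : ∀ k : ℤ, 16 * (b : ℤ) ≤ k → k ≤ 256 * ((I : ℤ) * b) →
      Gd (0, 0) m (↑F : Set Edg) u (k, H) := by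
    intro k k1 k2
    refine Gd_hor g0 fun j j1 j2 => hcz _ (oa_spine hab ?_ ?_)
    · have := min_le_iff.1 j1; omega
    · have := le_max_iff.1 j2; omega
  have sI : ∀ s : ℕ, s < I → (s : ℤ) * b + b ≤ I * b := by
    intro s hs
    have : ((s : ℤ) + 1) * b ≤ I * b := mul_le_mul_of_nonneg_right (by exact_mod_cast hs) hb0
    linarith
  have sJ : ∀ s : ℕ, s < J → (s : ℤ) * b + b ≤ J * b := by
    intro s hs
    have : ((s : ℤ) + 1) * b ≤ J * b := mul_le_mul_of_nonneg_right (by exact_mod_cast hs) hb0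
    linarith
  have hH' : H = 24 * b + 32 * ((J : ℤ) * b) := by rw [hH]; ring
  have gt : ∀ s : ℕ, s < I → ∀ k : ℤ, 48 * (b : ℤ) ≤ k → k ≤ H →
      Gd (0, 0) m (↑F : Set Edg) u ((256 * (s : ℤ) + 16) * b, k) := by
    intro s hs k k1 k2
    have h1 := sI s hs
    have h0 : 0 ≤ (s : ℤ) * b := by positivity
    have e1 : (256 * (s : ℤ) + 16) * b = 256 * (s * b) + 16 * b := by ring
    have h2 := gs ((256 * (s : ℤ) + 16) * b) (by rw [e1]; omega) (by rw [e1]; omega)
    refine Gd_ver h2 fun j j1 j2 => hcz _ (oa_tooth hab hs ?_ ?_)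
    · have h3 : (1 : ℤ) * b ≤ J * b := mul_le_mul_of_nonneg_right (by exact_mod_cast hJ) hb0
      have := min_le_iff.1 j1
      omega
    · have := le_max_iff.1 j2; omega
  have gc : ∀ s t : ℕ, s < I → t < J →
      Gd (0, 0) m (↑F : Set Edg) u ((256 * (s : ℤ) + 128) * b, (48 + 32 * (t : ℤ)) * b) := by
    intro s t hs ht
    have h1 := sJ t ht
    have h0 : 0 ≤ (t : ℤ) * b := by positivity
    have e1 : (48 + 32 * (t : ℤ)) * b = 48 * b + 32 * (t * b) := by ring
    have h2 := gt s hs ((48 + 32 * (t : ℤ)) * b) (by rw [e1]; omega) (by rw [e1, hH']; omega)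
    have e2 : (256 * (s : ℤ) + 16) * b = 256 * (s * b) + 16 * b := by ring
    have e3 : (256 * (s : ℤ) + 128) * b = 256 * (s * b) + 128 * b := by ring
    refine Gd_hor h2 fun j j1 j2 => hcz _ (oa_conn hab hs ht ?_ ?_)
    · have := min_le_iff.1 j1; omega
    · have := le_max_iff.1 j2; omega
  have gd : ∀ s t : ℕ, s < I → t < J →
      Gd (0, 0) m (↑F : Set Edg) u ((256 * (s : ℤ) + 128) * b, (39 + 32 * (t : ℤ)) * b + 1) := by
    intro s t hs ht
    have h2 := gc s t hs ht
    have e1 : (48 + 32 * (t : ℤ)) * b = 48 * b + 32 * (t * b) := by ring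
    have e2 : (39 + 32 * (t : ℤ)) * b = 39 * b + 32 * (t * b) := by ring
    refine Gd_ver h2 fun j j1 j2 => hcz _ (oa_down hab hs ht ?_ ?_)
    · have := min_le_iff.1 j1; omega
    · have := le_max_iff.1 j2; omega
  -- the cluster avoids the slits
  have hslit : ∀ s : ℕ, s < I → ∀ y : ℤ, 0 ≤ y → y + 8 * U ≤ 32 * (J * U) →
      (256 * ((s : ℤ) * U) + 256 * U, y) ∉ Cu (↑F : Set Edg) u := by
    intro s hs y hy1 hy2 hcon
    set j : ℤ := y / (2 * m) with hj
    have k1 := Int.emod_add_mul_ediv y (2 * m)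
    have k2 := Int.emod_nonneg y (show (2 * m : ℤ) ≠ 0 by omega)
    have k3 := Int.emod_lt_of_pos y (show (0 : ℤ) < 2 * m by omega)
    have k4 : 0 ≤ j := Int.ediv_nonneg hy1 (by omega)
    rw [← hj] at k1
    have e2 : (2 * m : ℤ) * j = 2 * (m * j) := by ring
    rw [e2] at k1
    have ex : 2 * ((m : ℤ) * (256 * ((s : ℤ) * b) + 256 * b)) = 256 * ((s : ℤ) * U) + 256 * U := by
      rw [← hbm]; ring
    have hq : (256 * ((s : ℤ) * b) + 256 * b, j) ∈ CC a b m I J := by
      rw [mem_CC hab hm]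
      refine ⟨s, hs, ?_, ?_, ?_⟩
      · simp only [Run7.h561.cell]
        exact ex
      · simp only [Run7.h561.cell]
        positivity
      · simp only [Run7.h561.cell]
        rw [← hU]
        omega
    have hb := hD _ hq
    refine bsd_avoid hb (x := (256 * ((s : ℤ) * U) + 256 * U, y)) (y := u) ?_ ?_ (Reach.symm hcon)
    · rw [sd_le]; simp only [Run7.h561.cell]; rw [ex]; push_cast; omega
    · rw [le_sd, hu]; simp only [Run7.h561.cell]; rw [ex]; push_cast
      omega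
  -- the gadgets
  have hgad : ∀ g ∈ Finset.range I ×ˢ Finset.range J, ∃ V : Finset Vtx,
      V ⊆ ctr (tr (cen a m g) (v0 a m)) m ∧ c0 * (m : ℝ) ^ (4 / 3 : ℝ) ≤ V.card ∧
      ∀ v ∈ V, v ∈ Cu (↑F : Set Edg) u ∧ ∃ x w : Vtx, sd x v ≤ 2 ∧ x ∉ Cu (↑F : Set Edg) u ∧
        w.2 = 0 ∧ Reach (offC (Cu (↑F : Set Edg) u)) x w := by
    intro g hg
    have hGF := hM g hg
    rw [Finset.mem_product, Finset.mem_range, Finset.mem_range] at hg
    have h1 := mulU a m hg.1
    have h2 := mulU a m hg.2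
    have h3 := mulU0 a m g.1
    have h4 := mulU0 a m g.2
    rw [← hU] at h1 h2 h3 h4
    refine gad_path hG hF hm hu2 hGF ?_ ?_ ?_ ?_ ?_
    · obtain ⟨z, z1, z2⟩ := gd g.1 g.2 hg.1 hg.2
      rw [tr0] at z1
      obtain ⟨x, x1, y, y1, k1, k2⟩ := z1.nbr (tr (cen a m g) (q1 a m)) (by
        right; right; right
        simp only [tr, Run7.h561.cell, q1, AT.cen]
        ext
        · simp only
          rw [← hU, ← hbm]
          ring
        · simp only
          rw [← hU, ← hbm]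
          ring)
      exact ⟨x, x1, Reach.trans z2 (Reach.symm k2)⟩
    · have h5 : 48 * (b : ℤ) ≤ H := by
        have h3 : (1 : ℤ) * b ≤ J * b := mul_le_mul_of_nonneg_right (by exact_mod_cast hJ) hb0
        omega
      obtain ⟨s, s1, s2, s3⟩ := Gd_line (gt g.1 hg.1 H h5 le_rfl)
      refine ⟨_, ?_, s3⟩
      rw [le_sd]
      simp only [AT.cen]
      rw [← hU]
      have e1 : 2 * ((m : ℤ) * ((256 * (g.1 : ℤ) + 16) * b)) = 256 * ((g.1 : ℤ) * U) + 16 * U := by
        rw [← hbm]; ring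
      rw [e1]
      omega
    · simp only [AT.cen]
      rw [← hU]
      omega
    · simp only [AT.cen]
      rw [← hU]
      omega
    · intro s s1 s2
      simp only [AT.cen] at s2 ⊢
      rw [← hU] at s2 ⊢
      exact hslit g.1 hg.1 s s1 (by omega)
  choose! V hV1 hV2 hV3 using hgad
  -- the arch
  set Y : ℤ := 24 * U + 32 * (J * U) with hY
  set XR : ℤ := 256 * (I * U) + 2 * U with hXR
  obtain ⟨t1, t2, u1, u2, u3⟩ := hR1
  obtain ⟨l, l', u4, u5, u6⟩ := hR2
  obtain ⟨r, r', u7, u8, u9⟩ := hR3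
  have sF : ∀ (T : Finset Edg) (x y : Vtx), Reach ((↑F : Set Edg) ∩ ↑T) x y →
      Reach (↑F : Set Edg) x y := fun T x y h => h.mono Set.inter_subset_left
  have c1 : (X0, t1) ∈ Cu (↑F : Set Edg) u := by
    obtain ⟨w', w, a1, a2, a3, a4, -⟩ := Run7.h561.first_hit {v : Vtx | 16 * U ≤ v.1} u3
      (by simp only [Set.mem_setOf_eq, not_le]; omega) (by simp only [Set.mem_setOf_eq]; omega)
    simp only [Set.mem_setOf_eq, not_le] at a1 a2 a4
    have a5 := Pool.Agent.W424.OD.adj_near a3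
    have a6 : Reach ((↑F : Set Edg) ∩ ↑(LRE X0 X1 (Y - m) (Y + m))) (X0, t1) w :=
      (a4.mono fun e he => he.1).trans (Adj.reach a3)
    have a7 : w ∈ {v : Vtx | Y - m ≤ v.2 ∧ v.2 ≤ Y + m} := by
      refine Run7.h561.reach_mem ?_ a6 (by simp only [Set.mem_setOf_eq]; omega)
      rintro ⟨x, y, b'⟩ ⟨-, he⟩
      rw [Finset.mem_coe] at he
      cases b'
      · rw [mem_LRE_false] at he
        simp only [src_mk, tgt_false, Set.mem_setOf_eq]
        omega
      · rw [mem_LRE_true] at he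
        simp only [src_mk, tgt_true, Set.mem_setOf_eq]
        omega
    simp only [Set.mem_setOf_eq] at a7
    have a8 : Reach (↑F : Set Edg) w z0 := by
      refine hz0.hub w ?_ (X0, t1) ?_ (sF _ _ _ a6).symm
      · rw [Run7.h561.mem_ctr, tr0, sd_le]
        simp only [Run7.h561.cell]
        rw [e16, hmH]
        omega
      · rw [far_iff, tr0, le_sd]
        simp only [Run7.h561.cell]
        rw [e16]
        push_cast
        omega
    exact Reach.trans l3 (Reach.trans a8.symm (sF _ _ _ a6).symm)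
  have c2 : (l, (0:ℤ)) ∈ Cu (↑F : Set Edg) u := by
    obtain ⟨w', w, a1, a2, a3, a4, -⟩ := Run7.h561.first_hit {v : Vtx | Y ≤ v.2} u6
      (by simp only [Set.mem_setOf_eq, not_le]; omega) (by simp only [Set.mem_setOf_eq]; omega)
    simp only [Set.mem_setOf_eq, not_le] at a1 a2 a4
    have a5 := Pool.Agent.W424.OD.adj_near a3
    have a6 : Reach ((↑F : Set Edg) ∩ ↑(TBE (16 * U - m) (16 * U + m) 0 N)) (l, 0) w :=
      (a4.mono fun e he => he.1).trans (Adj.reach a3)
    have a7 : w ∈ {v : Vtx | 16 * U - m ≤ v.1 ∧ v.1 ≤ 16 * U + m} := by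
      refine Run7.h561.reach_mem ?_ a6 (by simp only [Set.mem_setOf_eq]; omega)
      rintro ⟨x, y, b'⟩ ⟨-, he⟩
      rw [Finset.mem_coe] at he
      cases b'
      · rw [mem_TBE_false] at he
        simp only [src_mk, tgt_false, Set.mem_setOf_eq]
        omega
      · rw [mem_TBE_true] at he
        simp only [src_mk, tgt_true, Set.mem_setOf_eq]
        omega
    simp only [Set.mem_setOf_eq] at a7
    have a8 : Reach (↑F : Set Edg) w z0 := by
      refine hz0.hub w ?_ (l, 0) ?_ (sF _ _ _ a6).symm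
      · rw [Run7.h561.mem_ctr, tr0, sd_le]
        simp only [Run7.h561.cell]
        rw [e16, hmH]
        omega
      · rw [far_iff, tr0, le_sd]
        simp only [Run7.h561.cell]
        rw [hmH]
        push_cast
        omega
    exact Reach.trans l3 (Reach.trans a8.symm (sF _ _ _ a6).symm)
  have c3 : (r, (0:ℤ)) ∈ Cu (↑F : Set Edg) u := by
    have k := LEV.meet (K := (↑F : Set Edg)) (a := XR - m) (b := XR + m) (c := Y - m) (d := Y + m)
      (by omega) (by omega) Set.inter_subset_left Set.inter_subset_left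
      (fun x y h6 h7 h8 => by
        have := h6.2
        simp only [mem_coe, mem_LRE_true] at this
        omega)
      (fun x y h6 h7 h8 => by
        have := h6.2
        simp only [mem_coe, mem_LRE_false] at this
        omega)
      (fun x y h6 h7 h8 => by
        have := h6.2
        simp only [mem_coe, mem_TBE_false] at this
        omega)
      (fun x y h6 h7 h8 => by
        have := h6.2
        simp only [mem_coe, mem_TBE_true] at this
        omega)
      u3 (by simp only; omega) (by simp only; omega) u9 (by simp only; omega) (by simp only; omega)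
    exact Reach.trans c1 k
  have inF : ∀ (T : Finset Edg) (x y : Vtx), Reach ((↑F : Set Edg) ∩ ↑T) x y →
      x ∈ Cu (↑F : Set Edg) u → Reach (inC (Cu (↑F : Set Edg) u) ∩ ↑T) x y := by
    intro T x y h hx
    refine (reach_restrict' (P := fun v => v ∈ Cu (↑F : Set Edg) u) h fun v hv =>
      Reach.trans hx (sF _ _ _ hv)).mono ?_
    rintro e ⟨⟨-, h2⟩, h3⟩
    exact ⟨h3, h2⟩
  refine ⟨u, hu2, ⟨t1, u1, c1⟩, (Finset.range I ×ˢ Finset.range J).biUnion V, ?_, ?_⟩
  · have hdisj : ((Finset.range I ×ˢ Finset.range J).biUnion V).card =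
        ∑ g ∈ Finset.range I ×ˢ Finset.range J, (V g).card := by
      apply Finset.card_biUnion
      intro g hg g' hg' hne
      show Disjoint (V g) (V g')
      rw [Finset.disjoint_left]
      intro v hv hv'
      have h1 := hV1 g hg hv
      have h2 := hV1 g' hg' hv'
      rw [Run7.h561.mem_ctr, sd_le] at h1 h2
      simp only [tr, v0, AT.cen] at h1 h2
      rw [← hU] at h1 h2
      apply hne
      ext
      · rcases lt_trichotomy g.1 g'.1 with h3 | h3 | h3
        · have := mulU a m h3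
          rw [← hU] at this
          omega
        · exact h3
        · have := mulU a m h3
          rw [← hU] at this
          omega
      · rcases lt_trichotomy g.2 g'.2 with h3 | h3 | h3
        · have := mulU a m h3
          rw [← hU] at this
          omega
        · exact h3
        · have := mulU a m h3
          rw [← hU] at this
          omega
    have h2 : ∑ g ∈ Finset.range I ×ˢ Finset.range J, (c0 * (m : ℝ) ^ (4 / 3 : ℝ)) ≤
        ∑ g ∈ Finset.range I ×ˢ Finset.range J, ((V g).card : ℝ) :=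
      Finset.sum_le_sum fun g hg => hV2 g hg
    rw [Finset.sum_const, nsmul_eq_mul, Finset.card_product, Finset.card_range,
      Finset.card_range] at h2
    rw [hdisj]
    push_cast at h2 ⊢
    exact h2
  · intro w hw
    rw [Finset.mem_biUnion] at hw
    obtain ⟨g, hg, hw⟩ := hw
    obtain ⟨h1, x, z, h2, h3, h4, h5⟩ := hV3 g hg w hw
    have h6 := hV1 g hg hw
    rw [Run7.h561.mem_ctr, sd_le] at h6
    simp only [tr, v0, AT.cen] at h6
    rw [← hU] at h6
    rw [Finset.mem_product, Finset.mem_range, Finset.mem_range] at hg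
    have g1 := mulU a m hg.1
    have g2 := mulU a m hg.2
    have g3 := mulU0 a m g.1
    have g4 := mulU0 a m g.2
    rw [← hU] at g1 g2 g3 g4
    have h7 := sd_le.1 h2
    refine ⟨h1, ⟨⟨by omega, by omega⟩, by omega, by omega⟩, x, z, h2, h3, h4, h5, ?_⟩
    intro y hy
    exact sep (xl := 16 * U) (xr := XR) (h := Y) (m := m) (N := N) (X0 := X0) (X1 := X1)
      (by omega) (by omega) (by omega) (by omega) (by omega) (by omega)
      (inF _ _ _ u6 c2) c2 (inF _ _ _ u9 c3) c3 (inF _ _ _ u3 c1) c1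
      (by omega) (by omega) (by omega) (by omega) h3 hy

end Run7.h537.FL
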