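import Pool.Agent.Run7.h537.FL.Prob
import Pool.Agent.Run7.h537.FL.Cnt
import Pool.Agent.H12R2.Sep.WinHalf
import Pool.Agent.W424.NC.ArmLow

/-! The arch and its probability. -/

set_option autoImplicit false

namespace Run7.h537.FL

open H974 H12S Finset H984P H984N H342P
open Run7.h561 Run7.h561.SURG Run7.h537.AT

/-- The arch. -/
def Arc (a m I J : ℕ) (X0 X1 N : ℤ) (F : Finset Edg) : Prop :=
  LRc X0 X1 (24 * ((a : ℤ) * m) + 32 * ((J : ℤ) * (a * m)) - m)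
      (24 * ((a : ℤ) * m) + 32 * ((J : ℤ) * (a * m)) + m) F ∧
  TBc (16 * ((a : ℤ) * m) - m) (16 * ((a : ℤ) * m) + m) 0 N F ∧
  TBc (256 * ((I : ℤ) * (a * m)) + 2 * (a * m) - m)
      (256 * ((I : ℤ) * (a * m)) + 2 * (a * m) + m) 0 N F

/-- The edges of the arch. -/
noncomputable def TA (a m I J : ℕ) (X0 X1 N : ℤ) : Finset Edg :=
  LRE X0 X1 (24 * ((a : ℤ) * m) + 32 * ((J : ℤ) * (a * m)) - m)
      (24 * ((a : ℤ) * m) + 32 * ((J : ℤ) * (a * m)) + m) ∪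
  (TBE (16 * ((a : ℤ) * m) - m) (16 * ((a : ℤ) * m) + m) 0 N ∪
  TBE (256 * ((I : ℤ) * (a * m)) + 2 * (a * m) - m)
      (256 * ((I : ℤ) * (a * m)) + 2 * (a * m) + m) 0 N)

theorem hh_low : ∃ r : ℝ, 0 < r ∧ r ≤ 1 ∧ ∀ (m j : ℕ) (w : ℤ), 1 ≤ m → 0 < w → w ≤ m * j →
    r ^ (2 * j + 1) ≤ hh (1/2) w (2 * m) := by
  obtain ⟨κ, hκ, hW⟩ := H12S.win_half
  refine ⟨κ, hκ, (hW 0).kle.trans (by norm_num), fun m j w hm hw hwj => ?_⟩
  have h1 := Pool.Agent.W424.NC.hh_long (hW (2 * m)) (by omega) j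
  push_cast at h1
  refine h1.trans (hh_mono (by norm_num) (by norm_num) hw ?_ le_rfl)
  have hm' : (1 : ℤ) ≤ m := by exact_mod_cast hm
  have h2 : (0 : ℤ) ≤ (m : ℤ) * j := by positivity
  nlinarith

theorem lre_src {a b c d : ℤ} {e : Edg} (h : e ∈ LRE a b c d) :
    c ≤ (src e).2 ∧ (src e).2 ≤ d := by
  obtain ⟨x, y, b'⟩ := e
  cases b'
  · rw [mem_LRE_false] at h
    simp only [src_mk]
    omega
  · rw [mem_LRE_true] at h
    simp only [src_mk]
    omega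

theorem tbe_src {a b c d : ℤ} {e : Edg} (h : e ∈ TBE a b c d) :
    a ≤ (src e).1 ∧ (src e).1 ≤ b := by
  obtain ⟨x, y, b'⟩ := e
  cases b'
  · rw [mem_TBE_false] at h
    simp only [src_mk]
    omega
  · rw [mem_TBE_true] at h
    simp only [src_mk]
    omega

theorem TA_T2 {a b m I J : ℕ} (hab : a = 2 * b) (ha : 24 ≤ a) (hm : 1 ≤ m) {X0 X1 N : ℤ} :
    Disjoint (TA a m I J X0 X1 N) (T2 a b m I J) := by
  rw [Finset.disjoint_left]
  intro e he he'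
  obtain ⟨w, ⟨s', hs', w1, w2, w3⟩, h2, -⟩ := T2_pos hab hm he'
  rw [sd_le] at h2
  have ham : 24 * m ≤ a * m := Nat.mul_le_mul_right m ha
  have hmU : 24 * (m : ℤ) ≤ (a : ℤ) * m := by exact_mod_cast ham
  have hm' : (1 : ℤ) ≤ m := by exact_mod_cast hm
  have k1 := mulU a m hs'
  have k2 := mulU0 a m s'
  unfold TA at he
  rw [Finset.mem_union, Finset.mem_union] at he
  rcases he with he | he | he
  · have := lre_src he
    omega
  · have := tbe_src he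
    omega
  · have := tbe_src he
    omega

theorem TA_TG {a m I J : ℕ} (ha : 24 ≤ a) (hm : 1 ≤ m) {X0 X1 N : ℤ}
    (g : ℕ × ℕ) (hg1 : g.1 < I) (hg2 : g.2 < J) :
    Disjoint (TA a m I J X0 X1 N) (TGs a m g) := by
  rw [Finset.disjoint_left]
  intro e he he'
  have h := TGs_pos ha he'
  simp only [AT.cen] at h
  have ham : 24 * m ≤ a * m := Nat.mul_le_mul_right m ha
  have hmU : 24 * (m : ℤ) ≤ (a : ℤ) * m := by exact_mod_cast ham
  have hm' : (1 : ℤ) ≤ m := by exact_mod_cast hm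
  have k1 := mulU a m hg1
  have k2 := mulU0 a m g.1
  have k3 := mulU a m hg2
  have k4 := mulU0 a m g.2
  unfold TA at he
  rw [Finset.mem_union, Finset.mem_union] at he
  rcases he with he | he | he
  · have := lre_src he
    omega
  · have := tbe_src he
    omega
  · have := tbe_src he
    omega

theorem inter_loc {F T T' : Finset Edg} (h : T ⊆ T') :
    (↑(F ∩ T') : Set Edg) ∩ ↑T = (↑F : Set Edg) ∩ ↑T := by
  rw [← Finset.coe_inter, ← Finset.coe_inter, Finset.inter_assoc, Finset.inter_eq_right.2 h]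

theorem Arc_loc {a m I J : ℕ} {X0 X1 N : ℤ} (F : Finset Edg) :
    Arc a m I J X0 X1 N F ↔ Arc a m I J X0 X1 N (F ∩ TA a m I J X0 X1 N) := by
  unfold Arc LRc TBc
  rw [inter_loc (F := F) (T' := TA a m I J X0 X1 N) (by unfold TA; exact Finset.subset_union_left),
    inter_loc (F := F) (T' := TA a m I J X0 X1 N)
      (by unfold TA; exact Finset.subset_union_left.trans Finset.subset_union_right),
    inter_loc (F := F) (T' := TA a m I J X0 X1 N)
      (by unfold TA; exact Finset.subset_union_right.trans Finset.subset_union_right)]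

theorem Arc_mono {a m I J : ℕ} {X0 X1 N : ℤ} (F F' : Finset Edg) (h : F ⊆ F')
    (hF : Arc a m I J X0 X1 N F) : Arc a m I J X0 X1 N F' :=
  ⟨hF.1.mono h, hF.2.1.mono h, hF.2.2.mono h⟩

theorem Arc_pr {r : ℝ} (r0 : 0 < r) (hr : ∀ (m j : ℕ) (w : ℤ), 1 ≤ m → 0 < w → w ≤ m * j →
    r ^ (2 * j + 1) ≤ hh (1/2) w (2 * m)) {a m I J j : ℕ} {X0 X1 N : ℤ} (hm : 1 ≤ m)
    (h1 : X0 < X1) (h2 : X1 - X0 ≤ m * j) (h3 : 0 < N) (h4 : N ≤ m * j) {S : Finset Edg}
    (hS : TA a m I J X0 X1 N ⊆ S) :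
    r ^ (6 * j + 3) ≤ PQ (1/2) S (Arc a m I J X0 X1 N) := by
  have s1 : LRE X0 X1 (24 * ((a : ℤ) * m) + 32 * ((J : ℤ) * (a * m)) - m)
      (24 * ((a : ℤ) * m) + 32 * ((J : ℤ) * (a * m)) + m) ⊆ S :=
    (by unfold TA; exact Finset.subset_union_left : _ ⊆ TA a m I J X0 X1 N).trans hS
  have s2 : TBE (16 * ((a : ℤ) * m) - m) (16 * ((a : ℤ) * m) + m) 0 N ⊆ S :=
    (by unfold TA; exact Finset.subset_union_left.trans Finset.subset_union_right :
      _ ⊆ TA a m I J X0 X1 N).trans hS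
  have s3 : TBE (256 * ((I : ℤ) * (a * m)) + 2 * (a * m) - m)
      (256 * ((I : ℤ) * (a * m)) + 2 * (a * m) + m) 0 N ⊆ S :=
    (by unfold TA; exact Finset.subset_union_right.trans Finset.subset_union_right :
      _ ⊆ TA a m I J X0 X1 N).trans hS
  have p1 := pr_LRc (1/2) s1
  have p2 := pr_TBc (1/2) s2
  have p3 := pr_TBc (1/2) s3
  have q1 : r ^ (2 * j + 1) ≤ PQ (1/2) S (LRc X0 X1
      (24 * ((a : ℤ) * m) + 32 * ((J : ℤ) * (a * m)) - m)
      (24 * ((a : ℤ) * m) + 32 * ((J : ℤ) * (a * m)) + m)) := by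
    refine (hr m j (X1 - X0) hm (by omega) h2).trans (le_of_eq ?_)
    rw [PQ, p1]
    congr 1
    ring
  have q2 : r ^ (2 * j + 1) ≤ PQ (1/2) S (TBc (16 * ((a : ℤ) * m) - m)
      (16 * ((a : ℤ) * m) + m) 0 N) := by
    refine (hr m j N hm h3 h4).trans (le_of_eq ?_)
    rw [PQ, p2]
    congr 1
    · ring
    · ring
  have q3 : r ^ (2 * j + 1) ≤ PQ (1/2) S (TBc (256 * ((I : ℤ) * (a * m)) + 2 * (a * m) - m)
      (256 * ((I : ℤ) * (a * m)) + 2 * (a * m) + m) 0 N) := by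
    refine (hr m j N hm h3 h4).trans (le_of_eq ?_)
    rw [PQ, p3]
    congr 1
    · ring
    · ring
  have hok := ok2
  have t1 := Pr_harris ok2 (TBc_incr S (16 * ((a : ℤ) * m) - m) (16 * ((a : ℤ) * m) + m) 0 N)
    (TBc_incr S (256 * ((I : ℤ) * (a * m)) + 2 * (a * m) - m)
      (256 * ((I : ℤ) * (a * m)) + 2 * (a * m) + m) 0 N)
  have t2 := Pr_harris ok2 (LRc_incr S X0 X1 (24 * ((a : ℤ) * m) + 32 * ((J : ℤ) * (a * m)) - m)
      (24 * ((a : ℤ) * m) + 32 * ((J : ℤ) * (a * m)) + m))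
    (B := fun F => TBc (16 * ((a : ℤ) * m) - m) (16 * ((a : ℤ) * m) + m) 0 N F ∧
      TBc (256 * ((I : ℤ) * (a * m)) + 2 * (a * m) - m)
      (256 * ((I : ℤ) * (a * m)) + 2 * (a * m) + m) 0 N F)
    (fun F F' h _ hF => ⟨hF.1.mono h, hF.2.mono h⟩)
  unfold PQ at q1 q2 q3 ⊢
  have e : r ^ (6 * j + 3) = r ^ (2 * j + 1) * (r ^ (2 * j + 1) * r ^ (2 * j + 1)) := by
    rw [← pow_add, ← pow_add]
    congr 1
    ring
  rw [e]
  have n1 : 0 ≤ r ^ (2 * j + 1) := by positivity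
  refine le_trans (mul_le_mul q1 ((mul_le_mul q2 q3 n1 (n1.trans q2)).trans t1) (by positivity)
    (n1.trans q1)) t2

end Run7.h537.FL
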