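import Pool.Agent.Run7.h537.FL.Ev
import Pool.Agent.Run7.h537.FL.LowGen

/-! The frontier of the wired cluster in the Dobrushin box: lower bound. -/

set_option autoImplicit false

namespace Run7.h537.FL

open H974 H12S Finset H984P H984N H342P
open Run7.h561 Run7.h561.SURG Run7.h537.AT

/-- the wired vertices: left and top side -/
def Wt (n : ℕ) : Set Vtx := {w | w ∈ Plain.box n ∧ (w.1 = 0 ∨ w.2 = n)}

/-- the complement of the quadrant -/
def Ot (n : ℕ) : Set Vtx := {v | v.1 < 0 ∨ (n : ℤ) < v.2}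

/-- the wired vertices: left and bottom side -/
def Wd (n : ℕ) : Set Vtx := {w | w ∈ Plain.box n ∧ (w.1 = 0 ∨ w.2 = 0)}

/-- the complement of the quadrant -/
def Od : Set Vtx := {v | v.1 < 0 ∨ v.2 < 0}

/-- the complement of the box -/
def Qb (n : ℕ) : Set Vtx := {q | q ∉ Plain.box n}

open Classical in
/-- the number of frontier vertices (wired left and top side) -/
noncomputable def cntT (n : ℕ) (F : Finset Edg) : ℝ :=
  ((((Plain.box n).filter (fun w => AccS (KW (Wt n) (↑F : Set Edg))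
    (KW (Wt n) (↑F : Set Edg) ∪ Ot n) (Qb n) w)).card : ℕ) : ℝ)

open Classical in
/-- the number of frontier vertices (wired left and bottom side) -/
noncomputable def cntD (n : ℕ) (F : Finset Edg) : ℝ :=
  ((((Plain.box n).filter (fun w => AccS (KW (Wd n) (↑F : Set Edg))
    (KW (Wd n) (↑F : Set Edg) ∪ Od) (Qb n) w)).card : ℕ) : ℝ)

theorem KW_box {n : ℕ} {F : Finset Edg} (hF : F ⊆ RE 0 n 0 n) {W : Set Vtx}
    (hW : ∀ w ∈ W, w ∈ Plain.box n) {w : Vtx} (hw : w ∈ KW W (↑F : Set Edg)) :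
    w ∈ Plain.box n := by
  obtain ⟨w0, h1, h2⟩ := hw
  exact Cu_box hF (hW w0 h1) h2

theorem lowT : ∃ (C c : ℝ) (n0 : ℕ), 0 < C ∧ 0 < c ∧
    ∀ n : ℕ, n0 ≤ n → ∀ x : ℝ, 1 ≤ x → x ≤ c * (n:ℝ) ^ (2/3:ℝ) →
      Real.exp (-(C * x ^ 3)) ≤ PQ (1/2) (RE 0 n 0 n) (fun F => x * (n:ℝ) ^ (4/3:ℝ) ≤ cntT n F) := by
  obtain ⟨r, r0, r1, hr⟩ := hh_low
  refine low_gen (fun n => RE 0 n 0 n) cntT r0 r1 6 ?_
  intro κ κ0 κ1 hκ t M B a b m I J n y p c0 E0 G hG hp hab ha hm hI hJ hn1 hn2 hn3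
  have ham : 24 * m ≤ a * m := Nat.mul_le_mul_right m ha
  have hmU : 24 * (m : ℤ) ≤ (a : ℤ) * m := by exact_mod_cast ham
  have hm' : (1 : ℤ) ≤ m := by exact_mod_cast hm
  have z1 : 256 * ((I : ℤ) * (a * m)) + 3 * (a * m) ≤ n := by exact_mod_cast hn1
  have z2 : 32 * ((J : ℤ) * (a * m)) + 25 * (a * m) ≤ n := by exact_mod_cast hn2
  have IU : 0 ≤ (I : ℤ) * (a * m) := by positivity
  have JU : 0 ≤ (J : ℤ) * (a * m) := by positivity
  have z3 : (n : ℤ) ≤ m * (((y + 1) * a : ℕ) : ℤ) := by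
    have : n ≤ m * ((y + 1) * a) := by
      have e : m * ((y + 1) * a) = (y + 1) * (a * m) := by ring
      omega
    exact_mod_cast this
  have hTA : TA a m I J 0 n n ⊆ RE 0 n 0 n := by
    rintro ⟨x, y, b'⟩ he
    unfold TA at he
    rw [Finset.mem_union, Finset.mem_union] at he
    cases b'
    · rw [mem_LRE_false, mem_TBE_false, mem_TBE_false] at he
      rw [mem_RE_false]
      omega
    · rw [mem_LRE_true, mem_TBE_true, mem_TBE_true] at he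
      rw [mem_RE_true]
      omega
  have p1 := Arc_pr r0 hr (a := a) (I := I) (J := J) (j := (y + 1) * a) (X0 := 0) (X1 := n)
    (N := n) hm (by omega) (by omega) (by omega) z3 hTA
  have p2 := comb_pr' κ0 κ1 hκ hp hab ha hm hJ (n := n) (I := I) (by omega) hn2 hG.toGLc
    (Finset.Subset.refl (RE 0 n 0 n)) (TA a m I J 0 n n) (Arc a m I J 0 n n)
    (TA_T2 hab ha hm) (fun g => TA_TG ha hm g) Arc_loc Arc_mono
  have p3 : r ^ (6 * ((y + 1) * a) + 6) ≤ PQ (1/2) (RE 0 n 0 n) (Arc a m I J 0 n n) :=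
    (pow_le_pow_of_le_one r0.le r1 (by omega)).trans p1
  refine le_trans (mul_le_mul_of_nonneg_right p3 (by positivity)) (p2.trans (Pr_mono ok2 ?_))
  rintro F hF ⟨hcomb, h1, h2, h3⟩
  refine fr_count hG hab ha hm hI hJ ?_ hcomb le_rfl z1 z2 h1 h2 h3 ?_ ?_ ?_ ?_ ?_
  · intro e he
    have := Run7.h561.mem_RE.1 (hF he)
    exact ⟨this.1.2.1, this.2.2.1⟩
  · rintro v (⟨-, hv⟩ | hv) ⟨⟨a1, a2⟩, a3, a4⟩
    · omega
    · unfold Ot at hv
      simp only [Set.mem_setOf_eq] at hv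
      omega
  · intro u s hs hsu
    refine ⟨(0, s), ⟨?_, Or.inl rfl⟩, hsu⟩
    rw [mem_box]
    simp only
    omega
  · rintro z ⟨⟨a1, a2⟩, a3, a4⟩ hz
    constructor
    · unfold Qb
      simp only [Set.mem_setOf_eq]
      rw [mem_box]
      simp only
      omega
    · unfold Ot
      simp only [Set.mem_setOf_eq]
      omega
  · intro w hw
    have h := KW_box hF (fun w hw => hw.1) hw
    exact ⟨h, (mem_box.1 h).2.1⟩
  · rintro v ⟨⟨a1, a2⟩, a3, a4⟩ hv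
    unfold Ot at hv
    simp only [Set.mem_setOf_eq] at hv
    omega

theorem rfy_box (n : ℕ) : (rfy n).mp (RE 0 n 0 n) = RE 0 n 0 n := by
  ext ⟨x, y, b⟩
  cases b
  · rw [LSym.mem_mp, rfy_φsf, mem_RE_false, mem_RE_false]
    omega
  · rw [LSym.mem_mp, rfy_φst, mem_RE_true, mem_RE_true]
    omega

theorem rfy_inv (n : ℤ) (v : Vtx) : (rfy n).ψ ((rfy n).ψ v) = v := by
  obtain ⟨x, y⟩ := v
  simp

theorem cntT_le (n : ℕ) (F : Finset Edg) : cntT n F ≤ cntD n ((rfy n).mp F) := by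
  classical
  unfold cntT cntD
  have hK : ∀ v, v ∈ KW (Wt n) (↑F : Set Edg) ↔
      (rfy n).ψ v ∈ KW (Wd n) (↑((rfy n).mp F) : Set Edg) := by
    intro v
    rw [LSym.coe_mp]
    constructor
    · rintro ⟨w, ⟨h1, h2⟩, h3⟩
      refine ⟨(rfy n).ψ w, ⟨?_, ?_⟩, (rfy n).reach h3⟩
      · obtain ⟨x, y⟩ := w
        rw [mem_box] at h1 ⊢
        simp only [rfy_ψ] at h1 ⊢
        omega
      · obtain ⟨x, y⟩ := w
        simp only [rfy_ψ] at h2 ⊢
        omega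
    · rintro ⟨w, ⟨h1, h2⟩, h3⟩
      refine ⟨(rfy n).ψ w, ⟨?_, ?_⟩, ?_⟩
      · obtain ⟨x, y⟩ := w
        rw [mem_box] at h1 ⊢
        simp only [rfy_ψ] at h1 ⊢
        omega
      · obtain ⟨x, y⟩ := w
        simp only [rfy_ψ] at h2 ⊢
        omega
      · rw [← (rfy n).reach_iff, rfy_inv]
        exact h3
  have hinj : Function.Injective (rfy n).ψ := (rfy n).ψ.injective
  rw [← Finset.card_image_of_injective _ hinj]
  have hsub : ((Plain.box n).filter (fun w => AccS (KW (Wt n) (↑F : Set Edg))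
      (KW (Wt n) (↑F : Set Edg) ∪ Ot n) (Qb n) w)).image (rfy n).ψ ⊆
      (Plain.box n).filter (fun w => AccS (KW (Wd n) (↑((rfy n).mp F) : Set Edg))
        (KW (Wd n) (↑((rfy n).mp F) : Set Edg) ∪ Od) (Qb n) w) := by
    intro w hw
    rw [Finset.mem_image] at hw
    obtain ⟨v, hv, rfl⟩ := hw
    rw [Finset.mem_filter] at hv ⊢
    refine ⟨?_, AccS_sym (rfy n) (fun v hv => (hK v).1 hv) ?_ ?_ hv.2⟩
    · obtain ⟨x, y⟩ := v
      have h1 := hv.1
      rw [mem_box] at h1 ⊢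
      simp only [rfy_ψ] at h1 ⊢
      omega
    · rintro ⟨x, y⟩ (h1 | h1)
      · exact Or.inl ((hK _).2 h1)
      · right
        unfold Od at h1
        unfold Ot
        simp only [rfy_ψ, Set.mem_setOf_eq] at h1 ⊢
        omega
    · rintro ⟨x, y⟩ h1
      unfold Qb at h1 ⊢
      simp only [Set.mem_setOf_eq, mem_box, rfy_ψ] at h1 ⊢
      omega
  exact_mod_cast Finset.card_le_card hsub

theorem lowD : ∃ (C c : ℝ) (n0 : ℕ), 0 < C ∧ 0 < c ∧
    ∀ n : ℕ, n0 ≤ n → ∀ x : ℝ, 1 ≤ x → x ≤ c * (n:ℝ) ^ (2/3:ℝ) →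
      Real.exp (-(C * x ^ 3)) ≤ PQ (1/2) (RE 0 n 0 n) (fun F => x * (n:ℝ) ^ (4/3:ℝ) ≤ cntD n F) := by
  obtain ⟨C, c, n0, hC, hc, h⟩ := lowT
  refine ⟨C, c, n0, hC, hc, fun n hn x hx1 hx2 => (h n hn x hx1 hx2).trans ?_⟩
  have e : PQ (1/2) (RE 0 n 0 n) (fun F => x * (n:ℝ) ^ (4/3:ℝ) ≤ cntD n F) =
      PQ (1/2) (RE 0 n 0 n) (fun F => x * (n:ℝ) ^ (4/3:ℝ) ≤ cntD n ((rfy n).mp F)) := by
    have := LSym.pr (rfy n) (1/2) (RE 0 n 0 n) (fun F => x * (n:ℝ) ^ (4/3:ℝ) ≤ cntD n F)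
    rw [rfy_box] at this
    exact this
  rw [e]
  exact Pr_mono ok2 fun F _ hF => hF.trans (cntT_le n F)

end Run7.h537.FL
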