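import Pool.Agent.Run7.h537.AT.LProb

/-! The probability of the comb together with an increasing event. -/

set_option autoImplicit false

namespace Run7.h537.FL

open H974 H12S Finset H984P H984N
open Run7.h561 Run7.h561.SURG Run7.h537.AT

theorem comb_pr' {κ p : ℝ} (κ0 : 0 < κ) (κ1 : κ ≤ 1) (hκ : ∀ (k : ℕ) (Q : Finset (ℤ × ℤ))
    (S : Finset Edg), 1 ≤ k → ((∀ q ∈ Q, blk q (3 * k) ⊆ S) →
      κ ^ Q.card ≤ PQ (1 / 2) S (fun F => ∀ q ∈ Q, BSU q k F)) ∧
      κ ^ Q.card ≤ PQ (1 / 2) S (fun F => ∀ q ∈ Q, BSD q k F)) (hp : 0 < p)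
    {a b m I J n : ℕ} (hab : a = 2 * b) (ha : 24 ≤ a) (hm : 1 ≤ m) (hJ : 1 ≤ J)
    (hn1 : 256 * (I * (a * m)) + a * m ≤ n)
    (hn2 : 32 * (J * (a * m)) + 25 * (a * m) ≤ n) {G : Finset Edg → Prop} (hG : GLc a m p G)
    {S : Finset Edg} (hS : RE 0 n 0 n ⊆ S) (T' : Finset Edg) (R : Finset Edg → Prop)
    (hT2 : Disjoint T' (T2 a b m I J))
    (hT3 : ∀ g : ℕ × ℕ, g.1 < I → g.2 < J → Disjoint T' (TGs a m g))
    (hR : ∀ F, R F ↔ R (F ∩ T')) (hRi : ∀ F F', F ⊆ F' → R F → R F') :
    PQ (1 / 2) S R * (κ ^ (Cells b I J).card * κ ^ (Cells b I J).card * p ^ (I * J)) ≤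
      PQ (1 / 2) S (fun F => Comb a b m I J G F ∧ R F) := by
  classical
  have ham : 24 * m ≤ a * m := Nat.mul_le_mul_right m ha
  set O : Finset Edg → Prop := fun F => ∀ q ∈ OC a b m I J, BSU (Run7.h561.cell m q) m F with hO
  set D : Finset Edg → Prop := fun F => ∀ q ∈ CC a b m I J,
    BSD (Run7.h561.cell m q) (2 * m) (F ∩ S) with hD
  set M : Finset Edg → Prop := fun F => ∀ g ∈ Finset.range I ×ˢ Finset.range J,
    G ((trl (-(cen a m g).1) (-(cen a m g).2)).mp F) with hM
  set T3 : Finset Edg := (Finset.range I ×ˢ Finset.range J).biUnion (TGs a m) with hT3'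
  have hgm : ∀ g : ℕ × ℕ, g ∈ Finset.range I ×ˢ Finset.range J ↔ g.1 < I ∧ g.2 < J := by
    intro g
    rw [Finset.mem_product, Finset.mem_range, Finset.mem_range]
  have s1 : T1 a b m I J ⊆ S := (T1_sub hab hm hJ ham hn1 hn2).trans hS
  have s3 : T3 ⊆ S := by
    intro e he
    rw [hT3', Finset.mem_biUnion] at he
    obtain ⟨g, hg, he⟩ := he
    rw [hgm] at hg
    exact hS (TGs_sub ha hm hn1 hn2 hg.1 hg.2 he)
  have lO : ∀ F, O F ↔ O (F ∩ T1 a b m I J) := by
    intro F
    simp only [hO]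
    refine forall₂_congr fun q hq => bsu_local' fun e he => ?_
    unfold T1
    rw [Finset.mem_biUnion]
    exact ⟨q, hq, he⟩
  have lD : ∀ F, D F ↔ D (F ∩ (T2 a b m I J ∩ S)) := by
    intro F
    simp only [hD]
    refine forall₂_congr fun q hq => ?_
    have e1 : F ∩ (T2 a b m I J ∩ S) ∩ S = (F ∩ S) ∩ T2 a b m I J := by
      ext e
      simp only [Finset.mem_inter]
      tauto
    rw [e1]
    refine bsd_local' fun e he => ?_
    unfold T2
    rw [Finset.mem_biUnion]
    refine ⟨q, hq, ?_⟩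
    rw [show 3 * (2 * m) = 6 * m by ring] at he
    exact he
  have lG : ∀ (g : ℕ × ℕ) (F : Finset Edg), G ((trl (-(cen a m g).1) (-(cen a m g).2)).mp F) ↔
      G ((trl (-(cen a m g).1) (-(cen a m g).2)).mp (F ∩ TGs a m g)) := by
    intro g F
    unfold TGs
    rw [LSym.mp_inter, trl_cancel]
    exact hG.loc _
  have lM : ∀ F, M F ↔ M (F ∩ T3) := by
    intro F
    simp only [hM]
    refine forall₂_congr fun g hg => ?_
    rw [lG g F, lG g (F ∩ T3), Finset.inter_assoc]
    have : T3 ∩ TGs a m g = TGs a m g := by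
      rw [Finset.inter_eq_right]
      intro e he
      rw [hT3', Finset.mem_biUnion]
      exact ⟨g, hg, he⟩
    rw [this]
  have iM : ∀ F F', M F → F ⊆ F' → F' \ F ⊆ T1 a b m I J → M F' := by
    intro F F' h1 h2 h3 g hg
    have h4 := h1 g hg
    rw [hgm] at hg
    rw [hG.loc] at h4 ⊢
    refine hG.inc _ _ h4 (Finset.inter_subset_inter (LSym.mp_mono _ h2) (Finset.Subset.refl _)) ?_
    intro e he
    rw [Finset.mem_sdiff, Finset.mem_inter, Finset.mem_inter] at he
    obtain ⟨⟨e1, e2⟩, e3⟩ := he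
    have e4 : e ∉ (trl (-(cen a m g).1) (-(cen a m g).2)).mp F := fun h => e3 ⟨h, e2⟩
    have e5 : e ∈ (trl (-(cen a m g).1) (-(cen a m g).2)).mp ((F' \ F) ∩ TGs a m g) := by
      unfold TGs
      rw [LSym.mp_inter, trl_cancel, LSym.mp_sdiff, Finset.mem_inter, Finset.mem_sdiff]
      exact ⟨⟨e1, e4⟩, e2⟩
    have e6 : (F' \ F) ∩ TGs a m g ⊆ (trl (cen a m g).1 (cen a m g).2).mp (TI a m) := by
      intro x hx
      rw [Finset.mem_inter] at hx
      exact T1_TI hab ha hm hJ hg.1 hg.2 (h3 hx.1) hx.2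
    have e7 := LSym.mp_mono (trl (-(cen a m g).1) (-(cen a m g).2)) e6 e5
    rw [trl_cancel] at e7
    exact e7
  have dM : ∀ F F', M F → F' ⊆ F → F \ F' ⊆ T2 a b m I J ∩ S → M F' := by
    intro F F' h1 h2 h3 g hg
    have h4 := h1 g hg
    rw [hgm] at hg
    rw [hG.loc] at h4 ⊢
    refine hG.dec _ _ h4 (Finset.inter_subset_inter (LSym.mp_mono _ h2) (Finset.Subset.refl _)) ?_
    intro e he
    rw [Finset.mem_sdiff, Finset.mem_inter, Finset.mem_inter] at he
    obtain ⟨⟨e1, e2⟩, e3⟩ := he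
    have e4 : e ∉ (trl (-(cen a m g).1) (-(cen a m g).2)).mp F' := fun h => e3 ⟨h, e2⟩
    have e5 : e ∈ (trl (-(cen a m g).1) (-(cen a m g).2)).mp ((F \ F') ∩ TGs a m g) := by
      unfold TGs
      rw [LSym.mp_inter, trl_cancel, LSym.mp_sdiff, Finset.mem_inter, Finset.mem_sdiff]
      exact ⟨⟨e1, e4⟩, e2⟩
    have e6 : (F \ F') ∩ TGs a m g ⊆ (trl (cen a m g).1 (cen a m g).2).mp (TD a m) := by
      intro x hx
      rw [Finset.mem_inter] at hx
      exact T2_TD hab ha hm (Finset.mem_inter.1 (h3 hx.1)).1 hx.2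
    have e7 := LSym.mp_mono (trl (-(cen a m g).1) (-(cen a m g).2)) e6 e5
    rw [trl_cancel] at e7
    exact e7
  have main := t_MIX S (fun _ => ∅) (fun F G _ _ _ => rfl) (fun F _ => Finset.empty_subset _)
    (T1 a b m I J) (T2 a b m I J ∩ S) T3 s1 Finset.inter_subset_right s3
    ((T12_disj hab hm hJ ham).mono_right Finset.inter_subset_left)
    (fun F _ => ⟨Finset.disjoint_empty_left _, Finset.disjoint_empty_left _⟩) R O D M
    lO (fun F F' h h1 q hq => BSU_mono h (h1 q hq)) lD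
    (fun F F' h h1 q hq => bsd_dec (Finset.inter_subset_inter h (Finset.Subset.refl _)) (h1 q hq))
    lM iM dM (fun F F' _ _ _ h1 h2 => by
      rw [hR] at h2 ⊢
      refine hRi _ _ ?_ h2
      intro e he
      rw [Finset.mem_inter] at he ⊢
      refine ⟨?_, he.2⟩
      have e1 : e ∉ T2 a b m I J ∩ S ∪ T3 := by
        rw [Finset.mem_union, Finset.mem_inter]
        rintro (⟨e2, -⟩ | e2)
        · exact Finset.disjoint_left.1 hT2 he.2 e2
        · rw [hT3', Finset.mem_biUnion] at e2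
          obtain ⟨g, hg, e2⟩ := e2
          rw [hgm] at hg
          exact Finset.disjoint_left.1 (hT3 g hg.1 hg.2) he.2 e2
      have e2 := h1 (Finset.mem_sdiff.2 ⟨he.1, e1⟩)
      exact (Finset.mem_sdiff.1 e2).1)
  -- probabilities
  have pO : κ ^ (Cells b I J).card ≤ PQ (1 / 2) S O := by
    have h1 := (hκ m ((OC a b m I J).image (Run7.h561.cell m)) S hm).1 (by
      intro q hq
      rw [Finset.mem_image] at hq
      obtain ⟨q', hq', rfl⟩ := hq
      intro e he
      apply s1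
      unfold T1
      rw [Finset.mem_biUnion]
      exact ⟨q', hq', he⟩)
    have h2 : ((OC a b m I J).image (Run7.h561.cell m)).card ≤ (Cells b I J).card := by
      refine Finset.card_image_le.trans ?_
      unfold OC
      exact Finset.card_filter_le _ _
    refine (pow_le_pow_of_le_one κ0.le κ1 h2).trans (h1.trans (le_of_eq ?_))
    apply Pr_congr
    intro F _
    simp only [Finset.forall_mem_image, hO]
  have pD : κ ^ (Cells b I J).card ≤ PQ (1 / 2) S D := by
    have h1 := (hκ (2 * m) ((CC a b m I J).image (Run7.h561.cell m)) S (by omega)).2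
    have h2 : ((CC a b m I J).image (Run7.h561.cell m)).card ≤ (Cells b I J).card := by
      refine Finset.card_image_le.trans ?_
      unfold Run7.h537.AT.CC
      exact Finset.card_filter_le _ _
    refine (pow_le_pow_of_le_one κ0.le κ1 h2).trans (h1.trans (le_of_eq ?_))
    apply Pr_congr
    intro F hF
    simp only [Finset.forall_mem_image, hD, Finset.inter_eq_left.2 hF]
  have pM : p ^ (I * J) ≤ PQ (1 / 2) S M := by
    have h1 := prod_ind S (Finset.range I ×ˢ Finset.range J) (TGs a m)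
      (fun g F => G ((trl (-(cen a m g).1) (-(cen a m g).2)).mp F)) hp.le (by
        intro g hg
        rw [hgm] at hg
        exact (TGs_sub ha hm hn1 hn2 hg.1 hg.2).trans hS)
      (fun g _ F => lG g F) (fun g g' h => TGs_disj ha hm h) (by
        intro g hg
        rw [hgm] at hg
        have h1 := hG.prob ((trl (-(cen a m g).1) (-(cen a m g).2)).mp S) (by
          have := LSym.mp_mono (trl (-(cen a m g).1) (-(cen a m g).2))
            ((TGs_sub ha hm hn1 hn2 hg.1 hg.2).trans hS)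
          unfold TGs at this
          rwa [trl_cancel] at this)
        refine h1.trans (le_of_eq ?_)
        exact LSym.pr _ _ _ _)
    rw [Finset.card_product, Finset.card_range, Finset.card_range] at h1
    exact h1
  have nO : 0 ≤ PQ (1 / 2) S O := Pr_nonneg ok_half _ _
  have nD : 0 ≤ PQ (1 / 2) S D := Pr_nonneg ok_half _ _
  have q1 : κ ^ (Cells b I J).card * κ ^ (Cells b I J).card * p ^ (I * J) ≤
      PQ (1 / 2) S O * PQ (1 / 2) S D * PQ (1 / 2) S M :=
    mul_le_mul (mul_le_mul pO pD (by positivity) nO) pM (by positivity) (mul_nonneg nO nD)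
  have nN : 0 ≤ PQ (1 / 2) S R := Pr_nonneg ok_half _ _
  have q3 := mul_le_mul_of_nonneg_left q1 nN
  refine q3.trans (main.trans (Pr_mono ok_half ?_))
  rintro F hF ⟨h1, h2, h3, h4⟩
  refine ⟨⟨h2, ?_, h4⟩, h1⟩
  intro q hq
  have h5 := h3 q hq
  rw [Finset.sdiff_empty, Finset.inter_eq_left.2 hF] at h5
  exact h5

end Run7.h537.FL
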