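import Pool.Agent.Run7.h537.AT.LDet
import Pool.Agent.H984R3.Per.LowEV

/-! Separation by an arch: three crossings which belong to a set `C` of vertices. -/

set_option autoImplicit false

namespace Run7.h537.FL

open H974 Finset H984P H984N
open Run7.h561

/-- the edges of the half-plane which do not touch `C` -/
def offC (C : Set Vtx) : Set Edg :=
  {e | (src e ∉ C ∧ tgt e ∉ C) ∧ 0 ≤ (src e).2 ∧ 0 ≤ (tgt e).2}

/-- the edges with both ends in `C` -/
def inC (C : Set Vtx) : Set Edg := {e | src e ∈ C ∧ tgt e ∈ C}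

/-- edges with no or two ends in `C` -/
def sameC (C : Set Vtx) : Set Edg := {e | src e ∈ C ↔ tgt e ∈ C}

theorem same_iff {C : Set Vtx} {u v : Vtx} (h : Reach (sameC C) u v) : u ∈ C ↔ v ∈ C := by
  induction h with
  | refl => exact Iff.rfl
  | tail _ h2 ih =>
    obtain ⟨e, he, ⟨rfl, rfl⟩ | ⟨rfl, rfl⟩⟩ := h2
    · exact ih.trans he
    · exact ih.trans he.symm

theorem offC_same (C : Set Vtx) : offC C ⊆ sameC C := by
  rintro e ⟨⟨h1, h2⟩, -⟩
  exact ⟨fun h => absurd h h1, fun h => absurd h h2⟩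

theorem inC_same (C : Set Vtx) : inC C ⊆ sameC C := by
  rintro e ⟨h1, h2⟩
  exact ⟨fun _ => h2, fun _ => h1⟩

theorem offC_off {C : Set Vtx} {u v : Vtx} (h : Reach (offC C) u v) (hu : u ∉ C) : v ∉ C := by
  have := same_iff (h.mono (offC_same C))
  rwa [← this]

theorem offC_pos {C : Set Vtx} {u v : Vtx} (h : Reach (offC C) u v) (hu : 0 ≤ u.2) : 0 ≤ v.2 := by
  induction h with
  | refl => exact hu
  | tail _ h2 _ =>
    obtain ⟨e, ⟨-, he1, he2⟩, ⟨rfl, rfl⟩ | ⟨rfl, rfl⟩⟩ := h2
    · exact he2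
    · exact he1

/-- A path which starts under the arch and does not touch it stays under the arch. -/
theorem sep {C : Set Vtx} {xl xr h m N X0 X1 : ℤ} (hm : 0 < m) (hlr : xl + m ≤ xr - m)
    (hh : 0 ≤ h - m) (hN : h + m ≤ N) (hX0 : X0 ≤ xl - m) (hX1 : xr + m ≤ X1)
    {l l' r r' t t' : ℤ}
    (hL : Reach (inC C ∩ ↑(TBE (xl - m) (xl + m) 0 N)) (l, 0) (l', N)) (hLc : (l, (0:ℤ)) ∈ C)
    (hR : Reach (inC C ∩ ↑(TBE (xr - m) (xr + m) 0 N)) (r, 0) (r', N)) (hRc : (r, (0:ℤ)) ∈ C)
    (hT : Reach (inC C ∩ ↑(LRE X0 X1 (h - m) (h + m))) (X0, t) (X1, t')) (hTc : (X0, t) ∈ C)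
    {x0 y : Vtx} (h1 : xl + m ≤ x0.1) (h2 : x0.1 ≤ xr - m) (h3 : 0 ≤ x0.2) (h4 : x0.2 ≤ h - m)
    (hx0 : x0 ∉ C) (hy : Reach (offC C) x0 y) :
    (xl - m < y.1 ∧ y.1 < xr + m) ∧ 0 ≤ y.2 ∧ y.2 < h + m := by
  have hy0 := offC_pos hy h3
  by_contra hcon
  have hout : y.1 ≤ xl - m ∨ xr + m ≤ y.1 ∨ y.2 ≤ -1 ∨ h + m ≤ y.2 := by
    by_contra h5
    push Not at h5
    exact hcon ⟨⟨h5.1, h5.2.1⟩, hy0, h5.2.2.2⟩
  obtain ⟨w, hw1, hw2, hw3⟩ := first_exit (a := xl - m) (b := xr + m) (c := -1) (d := h + m)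
    (u := x0) (by unfold inR; omega) hy hout
  have hw4 : Reach (offC C) x0 w := hw3.mono Set.inter_subset_left
  have hw0 := offC_pos hw4 h3
  have sub : offC C ∩ ↑(RE (xl - m) (xr + m) (-1) (h + m)) ⊆ sameC C := fun e he =>
    offC_same C he.1
  have sub2 : ∀ T : Finset Edg, inC C ∩ ↑T ⊆ sameC C := fun T e he => inC_same C he.1
  have pf : ∀ x y : ℤ, ((x, y, false) : Edg) ∈ offC C ∩ ↑(RE (xl - m) (xr + m) (-1) (h + m)) →
      (xl - m ≤ x ∧ x ≤ xr + m) ∧ 0 ≤ y ∧ y < h + m := by
    rintro x y ⟨⟨-, h5, -⟩, h6⟩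
    simp only [mem_coe, mem_RE_false, src_mk] at h5 h6
    omega
  have pt : ∀ x y : ℤ, ((x, y, true) : Edg) ∈ offC C ∩ ↑(RE (xl - m) (xr + m) (-1) (h + m)) →
      (xl - m ≤ x ∧ x < xr + m) ∧ 0 ≤ y ∧ y ≤ h + m := by
    rintro x y ⟨⟨-, h5, -⟩, h6⟩
    simp only [mem_coe, mem_RE_true, src_mk] at h5 h6
    omega
  rcases hw2 with h5 | h5 | h5 | h5
  · -- left
    have k := LEV.meet (K := sameC C) (a := xl - m) (b := xl + m) (c := 0) (d := h + m)
      (by omega) (by omega) sub (sub2 (TBE (xl - m) (xl + m) 0 N))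
      (fun x y h6 h7 h8 => by have := pt x y h6; omega)
      (fun x y h6 h7 h8 => by have := pf x y h6; omega)
      (fun x y h6 h7 h8 => by
        have := h6.2
        simp only [mem_coe, mem_TBE_false] at this
        omega)
      (fun x y h6 h7 h8 => by
        have := h6.2
        simp only [mem_coe, mem_TBE_true] at this
        omega)
      hw3.symm (by omega) (by omega) hL (by simp) (by simp only; omega)
    have := same_iff k
    exact (offC_off hw4 hx0) (this.2 hLc)
  · have k := LEV.meet (K := sameC C) (a := xr - m) (b := xr + m) (c := 0) (d := h + m)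
      (by omega) (by omega) sub (sub2 (TBE (xr - m) (xr + m) 0 N))
      (fun x y h6 h7 h8 => by have := pt x y h6; omega)
      (fun x y h6 h7 h8 => by have := pf x y h6; omega)
      (fun x y h6 h7 h8 => by
        have := h6.2
        simp only [mem_coe, mem_TBE_false] at this
        omega)
      (fun x y h6 h7 h8 => by
        have := h6.2
        simp only [mem_coe, mem_TBE_true] at this
        omega)
      hw3 (by omega) (by omega) hR (by simp) (by simp only; omega)
    have := same_iff k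
    exact hx0 (this.2 hRc)
  · omega
  · have k := LEV.meet (K := sameC C) (a := xl - m) (b := xr + m) (c := h - m) (d := h + m)
      (by omega) (by omega) (sub2 (LRE X0 X1 (h - m) (h + m))) sub
      (fun x y h6 h7 h8 => by
        have := h6.2
        simp only [mem_coe, mem_LRE_true] at this
        omega)
      (fun x y h6 h7 h8 => by
        have := h6.2
        simp only [mem_coe, mem_LRE_false] at this
        omega)
      (fun x y h6 h7 h8 => by have := pf x y h6; omega)
      (fun x y h6 h7 h8 => by have := pt x y h6; omega)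
      hT (by simp only; omega) (by simp only; omega) hw3 (by omega) (by omega)
    have := same_iff k
    exact hx0 (this.1 hTc)

end Run7.h537.FL
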