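import Pool.Agent.Run7.h537.FL.LowD
import Pool.Agent.Run7.h537.AT.Mom

/-! The frontier of the wired cluster in the Dobrushin box: upper bound. -/

set_option autoImplicit false

namespace Run7.h537.FL

open H974 H12S Finset H389NS H984P H984N H342P
open Pool.Agent.W424.OD Run7.h537.AT
open TH992.T (Bq mem_Bq card_Bq Nb Yb Fam RE_sub_RE)
open Run7.h561 (Cu cluster_eq mem_box)

theorem cntD_le {n : ℕ} {F : Finset Edg} (hF : F ⊆ RE 0 n 0 n) :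
    cntD n F ≤ Nb (xs n) (n + 1) 0 0 F := by
  unfold cntD
  refine fr_le hF ?_ (fun u hu => hu.1) Set.subset_union_left (fun q hq => hq)
  rintro ⟨x, y⟩ ⟨hu1, hu2⟩ -
  rw [mem_box] at hu1
  simp only at hu1 hu2
  rcases hu2 with h | h
  · refine ⟨(x - 1, y, true), (x - 1, y), Or.inr ⟨rfl, by simp⟩, ?_, Or.inr ?_⟩
    · rw [mem_box]
      simp only
      omega
    · unfold Od
      simp only [Set.mem_setOf_eq]
      omega
  · refine ⟨(x, y - 1, false), (x, y - 1), Or.inr ⟨rfl, by simp⟩, ?_, Or.inr ?_⟩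
    · rw [mem_box]
      simp only
      omega
    · unfold Od
      simp only [Set.mem_setOf_eq]
      omega

theorem upD {C : ℝ} (hC : 1 ≤ C) (hU : ∀ (c : ℤ × ℤ) (k : ℕ), 1 ≤ k → ∀ S : Finset Edg,
    blk c k ⊆ S → PQ (1/2) S (fun F => A3v c 1 k ↑F) ≤ C * (k : ℝ) ^ (-(2/3):ℝ)) :
    ∃ K c : ℝ, 0 < K ∧ 0 < c ∧ ∀ n : ℕ, 1 ≤ n → ∀ x : ℝ, 0 ≤ x →
      PQ (1/2) (RE 0 n 0 n) (fun F => x * (n:ℝ) ^ (4/3:ℝ) ≤ cntD n F) ≤
        K * Real.exp (-(c * x ^ 3)) := by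
  obtain ⟨K, c, hK, hc, h⟩ := up_tail hC hU
  exact ⟨K, c, hK, hc, fun n hn x hx =>
    (Pr_mono ok2 fun F hF h1 => h1.trans (cntD_le hF)).trans (h n hn x hx)⟩

/-- the frontier count in plain words -/
theorem accS_iff {K B Q : Set Vtx} {w : Vtx} : AccS K B Q w ↔
    w ∈ K ∧ ∃ (e : Plain.Edge) (p q : ℤ × ℤ),
      ((Plain.fst e = w ∧ Plain.snd e = p) ∨ (Plain.fst e = p ∧ Plain.snd e = w)) ∧
      p ∉ B ∧ q ∈ Q ∧ (avoidGraph B).Reachable p q := by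
  unfold AccS
  constructor
  · rintro ⟨h1, e, p, q, h2, h3, h4, h5⟩
    exact ⟨h1, e, p, q, h2, h3, h4, Run7.h561.reach_avoid h5⟩
  · rintro ⟨h1, e, p, q, h2, h3, h4, h5⟩
    exact ⟨h1, e, p, q, h2, h3, h4, avoid_reach' h5⟩

end Run7.h537.FL
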